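import Mathlib

set_option autoImplicit false

/-!
Definitions used in the statement.
-/

namespace Pool.Agent.Lib.MP_9f8c44_an

open MeasureTheory Set

/-- `K` is an Eberlein space: it embeds in a Banach space with the weak topology. -/
def IsEberlein (K : Type) [TopologicalSpace K] : Prop :=
  ∃ (X : Type) (_ : NormedAddCommGroup X) (_ : NormedSpace ℝ X) (_ : CompleteSpace X)
    (e : K → WeakSpace ℝ X), Topology.IsEmbedding e

/-- `K` is a uniform Eberlein space: it embeds in a Hilbert space with the weak topology. -/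
def IsUniformEberlein (K : Type) [TopologicalSpace K] : Prop :=
  ∃ (H : Type) (_ : NormedAddCommGroup H) (_ : InnerProductSpace ℝ H) (_ : CompleteSpace H)
    (e : K → WeakSpace ℝ H), Topology.IsEmbedding e

/-- `f : [0,1] → C(K)` is Pettis integrable (only the values of `f` on `[0,1]` matter). -/
def PettisIntegrable {K : Type} [TopologicalSpace K] [CompactSpace K] (f : ℝ → C(K, ℝ)) : Prop :=
  (∀ φ : C(K, ℝ) →L[ℝ] ℝ, IntegrableOn (fun t => φ (f t)) (Icc (0 : ℝ) 1)) ∧
    ∀ A : Set ℝ, MeasurableSet A → A ⊆ Icc (0 : ℝ) 1 →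
      ∃ x : C(K, ℝ), ∀ φ : C(K, ℝ) →L[ℝ] ℝ, φ x = ∫ t in A, φ (f t)

/-- `f : [0,1] → C(K)` is McShane integrable. -/
def McShaneIntegrable {K : Type} [TopologicalSpace K] [CompactSpace K] (f : ℝ → C(K, ℝ)) : Prop :=
  BoxIntegral.Integrable
    (⟨fun _ => (0 : ℝ), fun _ => (1 : ℝ), fun _ => (zero_lt_one : (0 : ℝ) < 1)⟩ :
      BoxIntegral.Box (Fin 1))
    BoxIntegral.IntegrationParams.McShane (fun x => f (x 0)) BoxIntegral.BoxAdditiveMap.volume

/-- The class of compact spaces `K` such that every Pettis integrable function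
`[0,1] → C(K)` is McShane integrable. -/
def PettisEqMcShane (K : Type) [TopologicalSpace K] [CompactSpace K] : Prop :=
  ∀ f : ℝ → C(K, ℝ), PettisIntegrable f → McShaneIntegrable f

/-- The union of at most `ℵ₁` Lebesgue null sets of reals is null, that is, `add(N) > ω₁`. -/
def AlephOneNullUnions : Prop :=
  ∀ (ι : Type) (N : ι → Set ℝ), Cardinal.mk ι ≤ Cardinal.aleph 1 →
    (∀ i, volume (N i) = 0) → volume (⋃ i, N i) = 0

end Pool.Agent.Lib.MP_9f8c44_an
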