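import Mathlib
import Pool.Agent.Lib.MP_9f8c44_an.Defs

set_option autoImplicit false

/-!
The index set of type `ω₁` and a free set lemma.
-/

namespace Pool.Agent.Lib.MP_9f8c44_an

open Set

/-- A well ordered set of order type `ω₁`. -/
abbrev I : Type := (Cardinal.aleph 1).ord.ToType

lemma mk_I : Cardinal.mk I = Cardinal.aleph 1 := Cardinal.mk_ord_toType _

lemma countable_Iio (i : I) : (Iio i).Countable := by
  have h : Cardinal.mk (Iio i) < Cardinal.aleph 1 := Cardinal.mk_Iio_toType_ord_lt i
  rw [← Cardinal.le_aleph0_iff_set_countable]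
  exact Order.lt_succ_iff.1 (lt_of_lt_of_eq h Cardinal.succ_aleph0.symm)

lemma countable_Iic (i : I) : (Iic i).Countable := by
  have : Iic i = insert i (Iio i) := by
    ext x; simp [le_iff_eq_or_lt]
  rw [this]
  exact (countable_Iio i).insert i

lemma not_countable_univ : ¬ (univ : Set I).Countable := by
  intro h
  rw [← Cardinal.le_aleph0_iff_set_countable, Cardinal.mk_univ, mk_I] at h
  exact absurd h (not_le.2 Cardinal.aleph0_lt_aleph_one)

lemma exists_gt_of_countable {S : Set I} (hS : S.Countable) : ∃ b : I, ∀ s ∈ S, s < b := by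
  by_contra hcon
  push Not at hcon
  apply not_countable_univ
  have : (univ : Set I) ⊆ ⋃ s ∈ S, Iic s := by
    intro b _
    obtain ⟨s, hs, hbs⟩ := hcon b
    exact mem_iUnion₂.2 ⟨s, hs, hbs⟩
  exact (hS.biUnion fun s _ => countable_Iic s).mono this

lemma exists_mem_gt {S D : Set I} (hS : ¬ S.Countable) (hD : D.Countable) (T : Set I)
    (hT : T.Countable) : ∃ s ∈ S, s ∉ T ∧ ∀ d ∈ D, d < s := by
  obtain ⟨b, hb⟩ := exists_gt_of_countable hD
  by_contra hcon
  push Not at hcon
  apply hS
  have : S ⊆ T ∪ Iic b := by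
    intro s hs
    by_cases hsT : s ∈ T
    · exact Or.inl hsT
    · right
      obtain ⟨d, hd, hds⟩ := hcon s hs hsT
      by_contra h
      exact absurd ((hb d hd).trans (not_le.1 h)) (not_lt.2 hds)
  exact (hT.union (countable_Iic b)).mono this

/-- Free set lemma: from `k` uncountable sets one can choose increasing elements such that for
`i < j` the element `γ i` avoids a finite set depending on `γ j` and the element `γ j` avoids a
countable set depending on `γ i`. -/
theorem exists_free (F : I → Set I) (hF : ∀ i, (F i).Finite) (G : I → Set I)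
    (hG : ∀ i, (G i).Countable) (k : ℕ) :
    ∀ Γ : Fin k → Set I, (∀ i, ¬ (Γ i).Countable) → ∃ γ : Fin k → I,
      (∀ i, γ i ∈ Γ i) ∧ (∀ i j, i < j → γ i < γ j ∧ γ i ∉ F (γ j) ∧ γ j ∉ G (γ i)) := by
  induction k with
  | zero => intro Γ _; exact ⟨fun i => i.elim0, fun i => i.elim0, fun i => i.elim0⟩
  | succ k ih =>
    intro Γ hΓ
    -- good tuples for the first `k` sets
    let P : (Fin k → I) → Prop := fun γ => (∀ i, γ i ∈ Γ i.castSucc) ∧
      (∀ i j, i < j → γ i < γ j ∧ γ i ∉ F (γ j) ∧ γ j ∉ G (γ i))
    have hstep : ∀ s : Finset (Fin k → I), (∀ x ∈ s, P x) →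
        ∃ y, P y ∧ ∀ x ∈ s, Disjoint (range x) (range y) := by
      intro s _
      have hc : (⋃ x ∈ s, range x : Set I).Countable :=
        s.countable_toSet.biUnion fun x _ => countable_range x
      obtain ⟨y, hy1, hy2⟩ := ih (fun i => Γ i.castSucc \ ⋃ x ∈ s, range x) (by
        intro i hcon
        apply hΓ i.castSucc
        exact (hcon.union hc).mono (by
          intro z hz
          by_cases h : z ∈ (⋃ x ∈ s, range x : Set I)
          · exact Or.inr h
          · exact Or.inl ⟨hz, h⟩))
      refine ⟨y, ⟨fun i => (hy1 i).1, hy2⟩, fun x hx => ?_⟩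
      rw [Set.disjoint_right]
      rintro _ ⟨i, rfl⟩ hxi
      exact (hy1 i).2 (mem_iUnion₂.2 ⟨x, hx, hxi⟩)
    obtain ⟨T, hT1, hT2⟩ := exists_seq_of_forall_finset_exists P
      (fun x y => Disjoint (range x) (range y)) hstep
    -- the top element
    have hDc : (⋃ n, range (T n) : Set I).Countable := countable_iUnion fun n => countable_range _
    have hGc : (⋃ d ∈ (⋃ n, range (T n) : Set I), G d).Countable :=
      hDc.biUnion fun d _ => hG d
    obtain ⟨g, hg1, hg2, hg3⟩ := exists_mem_gt (hΓ (Fin.last k)) hDc _ hGc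
    -- only finitely many tuples meet `F g`
    have hex : ∃ n, Disjoint (range (T n)) (F g) := by
      by_contra hcon
      push Not at hcon
      have h1 : ∀ n, ∃ z, z ∈ range (T n) ∧ z ∈ F g := fun n => Set.not_disjoint_iff.1 (hcon n)
      choose z hz1 hz2 using h1
      have hinj : Function.Injective z := by
        intro m n hmn
        by_contra hne
        rcases lt_or_gt_of_ne hne with h | h
        · exact Set.disjoint_left.1 (hT2 m n h) (hz1 m) (hmn ▸ hz1 n)
        · exact Set.disjoint_left.1 (hT2 n m h) (hz1 n) (hmn ▸ hz1 m)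
      have : (range z).Finite := (hF g).subset (by rintro _ ⟨n, rfl⟩; exact hz2 n)
      exact this.not_infinite (infinite_range_of_injective hinj)
    obtain ⟨n, hn⟩ := hex
    refine ⟨Fin.snoc (T n) g, ?_, ?_⟩
    · intro i
      refine Fin.lastCases ?_ (fun i => ?_) i
      · simpa using hg1
      · simpa using (hT1 n).1 i
    · intro i j hij
      have hmem : ∀ i, T n i ∈ (⋃ n, range (T n) : Set I) := fun i =>
        mem_iUnion.2 ⟨n, mem_range_self i⟩
      induction j using Fin.lastCases with
      | last =>
        induction i using Fin.lastCases with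
        | last => exact absurd hij (lt_irrefl _)
        | cast i =>
          simp only [Fin.snoc_castSucc, Fin.snoc_last]
          refine ⟨hg3 _ (hmem i), Set.disjoint_left.1 hn (mem_range_self i), fun h => hg2 ?_⟩
          exact mem_iUnion₂.2 ⟨T n i, hmem i, h⟩
      | cast j =>
        induction i using Fin.lastCases with
        | last => exact absurd hij (not_lt.2 (Fin.le_last _))
        | cast i =>
          simp only [Fin.snoc_castSucc]
          exact (hT1 n).2 i j (by simpa using hij)

/-- A function `ρ` on pairs such that `ρ · β` is finite-to-one below `β`. -/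
lemma exists_rho : ∃ ρ : I → I → ℕ, ∀ β k, {α | α < β ∧ ρ α β < k}.Finite := by
  have h1 : ∀ β : I, ∃ f : I → ℕ, InjOn f (Iio β) := by
    intro β
    exact Set.countable_iff_exists_injOn.1 (countable_Iio β)
  choose f hf using h1
  refine ⟨fun α β => f β α, fun β k => ?_⟩
  have h2 : (f β '' {α | α < β ∧ f β α < k}).Finite :=
    (finite_lt_nat k).subset (by rintro _ ⟨α, hα, rfl⟩; exact hα.2)
  exact h2.of_finite_image ((hf β).mono fun α hα => hα.1)

/-- The chosen function. -/
noncomputable def rho : I → I → ℕ := exists_rho.choose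

lemma finite_rho (β : I) (k : ℕ) : {α | α < β ∧ rho α β < k}.Finite := exists_rho.choose_spec β k

end Pool.Agent.Lib.MP_9f8c44_an
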