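import Mathlib
import Pool.Agent.Lib.MP_9f8c44_an.Index

set_option autoImplicit false

/-!
The compact space `K` of finite subsets of `ω₁` used in the proof.
-/

namespace Pool.Agent.Lib.MP_9f8c44_an

open Set

/-- A finite set of indices is good if its number of elements is at most `rho α β` for any two of
its elements `α < β`. -/
def GoodSet (F : Finset I) : Prop := ∀ α ∈ F, ∀ β ∈ F, α < β → F.card ≤ rho α β

/-- All finite subsets of the support are good. -/
def Good (x : I → Bool) : Prop := ∀ F : Finset I, (∀ i ∈ F, x i = true) → GoodSet F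

/-- The compact space. -/
def K : Type := {x : I → Bool // Good x}

instance : TopologicalSpace K := inferInstanceAs (TopologicalSpace {x : I → Bool // Good x})

instance : T2Space K := inferInstanceAs (T2Space {x : I → Bool // Good x})

lemma isClosed_good : IsClosed {x : I → Bool | Good x} := by
  have : {x : I → Bool | Good x} = ⋂ F : Finset I, {x | (∀ i ∈ F, x i = true) → GoodSet F} := by
    ext x; simp [Good]
  rw [this]
  refine isClosed_iInter fun F => ?_
  by_cases hF : GoodSet F
  · simp [hF]
  · have : {x : I → Bool | (∀ i ∈ F, x i = true) → GoodSet F}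
        = ⋃ i ∈ F, {x : I → Bool | x i = false} := by
      ext x
      simp [hF]
    rw [this]
    refine F.finite_toSet.isClosed_biUnion fun i _ => ?_
    exact isClosed_eq (continuous_apply i) continuous_const

instance : CompactSpace K := isCompact_iff_compactSpace.1 isClosed_good.isCompact

/-- The coordinate. -/
def K.coord (x : K) (i : I) : Bool := x.1 i

lemma continuous_coord (i : I) : Continuous fun x : K => x.coord i :=
  (continuous_apply i).comp continuous_subtype_val

lemma K.ext {x y : K} (h : ∀ i, x.coord i = y.coord i) : x = y := Subtype.ext (funext h)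

lemma GoodSet.mono {F F' : Finset I} (hF : GoodSet F) (h : F' ⊆ F) : GoodSet F' :=
  fun α hα β hβ hαβ => (Finset.card_le_card h).trans (hF α (h hα) β (h hβ) hαβ)

lemma goodSet_singleton (i : I) : GoodSet {i} := by
  intro α hα β hβ hαβ
  rw [Finset.mem_singleton] at hα hβ
  exact absurd hαβ (by simp [hα, hβ])

/-- The point of `K` with a given support. -/
noncomputable def pt (A : Finset I) (hA : GoodSet A) : K :=
  ⟨fun i => decide (i ∈ A), fun F hF => hA.mono (fun i hi => by simpa using hF i hi)⟩

@[simp] lemma coord_pt (A : Finset I) (hA : GoodSet A) (i : I) :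
    (pt A hA).coord i = decide (i ∈ A) := rfl

lemma K.finite_supp (x : K) : {i | x.coord i = true}.Finite := by
  by_cases h : ∃ α β, x.coord α = true ∧ x.coord β = true ∧ α < β
  · obtain ⟨α, β, hα, hβ, hαβ⟩ := h
    by_contra hinf
    obtain ⟨F, hF, hc⟩ := Set.Infinite.exists_subset_card_eq hinf (rho α β + 1)
    have h1 := x.2 (F ∪ {α, β}) (by
      intro i hi
      simp only [Finset.mem_union, Finset.mem_insert, Finset.mem_singleton] at hi
      rcases hi with hi | rfl | rfl
      · exact hF hi
      · exact hα
      · exact hβ) α (by simp) β (by simp) hαβ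
    have h2 : F.card ≤ (F ∪ {α, β}).card := Finset.card_le_card Finset.subset_union_left
    omega
  · apply Set.Subsingleton.finite
    intro α hα β hβ
    by_contra hne
    rcases lt_or_gt_of_ne hne with h' | h'
    · exact h ⟨α, β, hα, hβ, h'⟩
    · exact h ⟨β, α, hβ, hα, h'⟩

/-- The support as a finset. -/
noncomputable def K.supp (x : K) : Finset I := x.finite_supp.toFinset

@[simp] lemma K.mem_supp (x : K) (i : I) : i ∈ x.supp ↔ x.coord i = true := by
  simp [K.supp]

lemma K.goodSet_supp (x : K) : GoodSet x.supp := x.2 _ fun i hi => (x.mem_supp i).1 hi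

lemma K.eq_pt (x : K) : x = pt x.supp x.goodSet_supp := by
  apply K.ext; intro i
  by_cases h : x.coord i = true <;> simp [h]

/-- The cardinality of `K`. -/
lemma mk_K : Cardinal.mk K ≤ Cardinal.aleph 1 := by
  have h1 : Function.Injective K.supp := by
    intro x y hxy
    apply K.ext
    intro i
    have : i ∈ x.supp ↔ i ∈ y.supp := by rw [hxy]
    simp only [K.mem_supp] at this
    exact Bool.eq_iff_iff.2 this
  have h2 := Cardinal.mk_le_of_injective h1
  have : Infinite I := by
    rw [Cardinal.infinite_iff, mk_I]; exact Cardinal.aleph0_le_aleph 1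
  rwa [Cardinal.mk_finset_of_infinite, mk_I] at h2

open Classical in
/-- The restriction of a point of `K` to the indices below `a`. -/
noncomputable def K.restr (a : I) (x : K) : K :=
  ⟨fun i => if i < a then x.coord i else false, fun F hF => x.2 F fun i hi => by
    have := hF i hi
    by_cases h : i < a
    · change x.coord i = true
      simpa [h] using this
    · simp [h] at this⟩

open Classical in
lemma K.coord_restr (a : I) (x : K) (i : I) :
    (x.restr a).coord i = if i < a then x.coord i else false := rfl

lemma continuous_restr (a : I) : Continuous (K.restr a) := by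
  refine Continuous.subtype_mk (continuous_pi fun i => ?_) _
  by_cases h : i < a
  · simpa [h] using continuous_coord i
  · simpa [h] using continuous_const

lemma K.restr_restr {a b : I} (hab : a ≤ b) (x : K) : (x.restr b).restr a = x.restr a := by
  apply K.ext
  intro i
  by_cases h : i < a
  · simp [K.coord_restr, h, h.trans_le hab]
  · simp [K.coord_restr, h]

/-- The function `x ↦ x_i`. -/
noncomputable def ee (i : I) : C(K, ℝ) :=
  ⟨fun x => if x.coord i then 1 else 0,
    (continuous_of_discreteTopology (f := fun b : Bool => if b then (1 : ℝ) else 0)).comp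
      (continuous_coord i)⟩

lemma ee_apply (i : I) (x : K) : ee i x = if x.coord i then 1 else 0 := rfl

/-- `K` is sequentially compact. -/
lemma K.exists_subseq (x : ℕ → K) : ∃ z : K, ∃ φ : ℕ → ℕ, StrictMono φ ∧
    Filter.Tendsto (x ∘ φ) Filter.atTop (nhds z) := by
  obtain ⟨b, hb⟩ := exists_gt_of_countable
    (S := ⋃ n, {i | (x n).coord i = true}) (countable_iUnion fun n => (x n).finite_supp.countable)
  have hb' : ∀ n i, ¬ i < b → (x n).coord i = false := by
    intro n i hi
    by_contra h
    exact hi (hb i (mem_iUnion.2 ⟨n, by simpa using h⟩))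
  have : Countable (Iio b) := (countable_Iio b).to_subtype
  let u : ℕ → (Iio b → Bool) := fun n i => (x n).coord i
  obtain ⟨v, φ, hφ, hv⟩ := CompactSpace.tendsto_subseq u
  classical
  let z₀ : I → Bool := fun i => if h : i < b then v ⟨i, h⟩ else false
  have hz : Filter.Tendsto (fun n => (x (φ n)).1) Filter.atTop (nhds z₀) := by
    rw [tendsto_pi_nhds]
    intro i
    by_cases h : i < b
    · have h1 : Filter.Tendsto (fun n => (x (φ n)).1 i) Filter.atTop (nhds (v ⟨i, h⟩)) :=
        (tendsto_pi_nhds.1 hv) ⟨i, h⟩
      have h2 : z₀ i = v ⟨i, h⟩ := by simp [z₀, h]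
      rw [h2]
      exact h1
    · have : ∀ n, (x (φ n)).1 i = false := fun n => hb' (φ n) i h
      simp [z₀, h, this]
  have hz1 : Good z₀ := isClosed_good.mem_of_tendsto hz
    (Filter.Eventually.of_forall fun n => (x (φ n)).2)
  exact ⟨⟨z₀, hz1⟩, φ, hφ, tendsto_subtype_rng.2 hz⟩

/-- Every continuous function on `K` depends on countably many coordinates. -/
lemma exists_restr (g : C(K, ℝ)) : ∃ a : I, ∀ x, g (x.restr a) = g x := by
  let 𝒜 : Subalgebra ℝ C(K, ℝ) :=
    { carrier := {g | ∃ a : I, ∀ x, g (x.restr a) = g x}
      mul_mem' := by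
        rintro g h ⟨a, ha⟩ ⟨b, hb⟩
        refine ⟨max a b, fun x => ?_⟩
        rw [ContinuousMap.mul_apply, ContinuousMap.mul_apply, ← ha (x.restr _),
          ← hb (x.restr _), K.restr_restr (le_max_left a b), K.restr_restr (le_max_right a b),
          ha, hb]
      add_mem' := by
        rintro g h ⟨a, ha⟩ ⟨b, hb⟩
        refine ⟨max a b, fun x => ?_⟩
        rw [ContinuousMap.add_apply, ContinuousMap.add_apply, ← ha (x.restr _),
          ← hb (x.restr _), K.restr_restr (le_max_left a b), K.restr_restr (le_max_right a b),
          ha, hb]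
      algebraMap_mem' := by
        intro r
        obtain ⟨b, _⟩ := exists_gt_of_countable (S := (∅ : Set I)) countable_empty
        exact ⟨b, fun x => rfl⟩ }
  have hsep : 𝒜.SeparatesPoints := by
    intro x y hxy
    have : ∃ i, x.coord i ≠ y.coord i := by
      by_contra h
      push Not at h
      exact hxy (K.ext h)
    obtain ⟨i, hi⟩ := this
    obtain ⟨b, hb⟩ := exists_gt_of_countable (S := ({i} : Set I)) (countable_singleton i)
    refine ⟨fun x => ee i x, ⟨ee i, ⟨b, fun x => ?_⟩, rfl⟩, ?_⟩
    · simp [ee_apply, K.coord_restr, hb i rfl]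
    · simp only [ee_apply]
      cases h1 : x.coord i <;> cases h2 : y.coord i <;> simp_all
  have hdense := ContinuousMap.subalgebra_topologicalClosure_eq_top_of_separatesPoints 𝒜 hsep
  have hclosed : IsClosed (𝒜 : Set C(K, ℝ)) := by
    apply IsSeqClosed.isClosed
    intro gs g hgs hg
    choose a ha using hgs
    obtain ⟨b, hb⟩ := exists_gt_of_countable (S := range a) (countable_range a)
    refine ⟨b, fun x => ?_⟩
    have h1 : ∀ y : K, Filter.Tendsto (fun n => gs n y) Filter.atTop (nhds (g y)) := fun y =>
      ((continuous_eval_const y).tendsto g).comp hg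
    have h2 : ∀ n, gs n (x.restr b) = gs n x := by
      intro n
      rw [← ha n (x.restr b), K.restr_restr (hb _ (mem_range_self n)).le, ha n]
    refine tendsto_nhds_unique (h1 (x.restr b)) ?_
    simp only [h2]
    exact h1 x
  have hmem : g ∈ 𝒜.topologicalClosure := by rw [hdense]; exact Algebra.mem_top
  have : g ∈ (𝒜 : Set C(K, ℝ)) := by
    rw [← hclosed.closure_eq]
    exact hmem
  exact this

end Pool.Agent.Lib.MP_9f8c44_an
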