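import Mathlib
import Pool.Agent.Lib.MP_9f8c44_an.Space

set_option autoImplicit false

/-!
The functions `ee i` form a weakly null family in `C(K)`.
-/

namespace Pool.Agent.Lib.MP_9f8c44_an

open Set

/-- A bound for `rho` on a finite set. -/
noncomputable def rmax (G : Finset I) : ℕ := (G ×ˢ G).sup fun p => rho p.1 p.2

lemma rho_le_rmax {G : Finset I} {α β : I} (hα : α ∈ G) (hβ : β ∈ G) : rho α β ≤ rmax G :=
  Finset.le_sup (f := fun p : I × I => rho p.1 p.2) (b := (α, β)) (Finset.mem_product.2 ⟨hα, hβ⟩)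

open Classical in
lemma card_supp_le (x : K) (G : Finset I) (h : 2 ≤ (x.supp ∩ G).card) :
    x.supp.card ≤ rmax G := by
  obtain ⟨α, hα, β, hβ, hne⟩ := Finset.one_lt_card.1 h
  rw [Finset.mem_inter] at hα hβ
  rcases lt_or_gt_of_ne hne with h' | h'
  · exact (x.goodSet_supp α hα.1 β hβ.1 h').trans (rho_le_rmax hα.2 hβ.2)
  · exact (x.goodSet_supp β hβ.1 α hα.1 h').trans (rho_le_rmax hβ.2 hα.2)

open Classical in
lemma finite_ge (Λ : C(K, ℝ) →L[ℝ] ℝ) {η : ℝ} (hη : 0 < η) : {γ | η ≤ Λ (ee γ)}.Finite := by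
  by_contra hinf
  set S : Set I := {γ | η ≤ Λ (ee γ)} with hS
  obtain ⟨M, hM⟩ := exists_nat_gt (3 * ‖Λ‖ / η)
  rw [div_lt_iff₀ hη] at hM
  have hchoose : ∀ G : Finset I, ∃ B : Finset I, ↑B ⊆ S \ ↑G ∧ B.card = M * rmax G + 1 :=
    fun G => Set.Infinite.exists_subset_card_eq (Set.Infinite.sdiff hinf G.finite_toSet) _
  choose B hB1 hB2 using hchoose
  let G : ℕ → Finset I := fun n => Nat.rec ∅ (fun _ G => G ∪ B G) n
  have hG0 : G 0 = ∅ := rfl
  have hGs : ∀ n, G (n + 1) = G n ∪ B (G n) := fun n => rfl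
  have hdisj : ∀ n, Disjoint (G n) (B (G n)) := by
    intro n
    rw [Finset.disjoint_right]
    intro a ha
    exact (hB1 (G n) ha).2
  let b : ℕ → C(K, ℝ) := fun n =>
    ((B (G n)).card : ℝ)⁻¹ • ∑ γ ∈ B (G n), ee γ
  have hcard : ∀ n, (0 : ℝ) < ((B (G n)).card : ℝ) := by
    intro n
    rw [hB2]; positivity
  have hb : ∀ n x, b n x = ((x.supp ∩ B (G n)).card : ℝ) / ((B (G n)).card : ℝ) := by
    intro n x
    have h1 : (∑ γ ∈ B (G n), ee γ) x = ((x.supp ∩ B (G n)).card : ℝ) := by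
      rw [ContinuousMap.sum_apply]
      simp only [ee_apply]
      rw [← Finset.sum_filter, Finset.sum_const, nsmul_eq_mul, mul_one]
      congr 2
      ext i
      simp [and_comm]
    change ((B (G n)).card : ℝ)⁻¹ * (∑ γ ∈ B (G n), ee γ) x = _
    rw [h1]
    field_simp
  have hΛb : ∀ n, η ≤ Λ (b n) := by
    intro n
    have h1 : Λ (b n) = ((B (G n)).card : ℝ)⁻¹ * ∑ γ ∈ B (G n), Λ (ee γ) := by
      rw [map_smul, map_sum, smul_eq_mul]
    have h2 : ((B (G n)).card : ℝ) * η ≤ ∑ γ ∈ B (G n), Λ (ee γ) := by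
      rw [← nsmul_eq_mul]
      exact Finset.card_nsmul_le_sum _ _ _ fun γ hγ => (hB1 (G n) hγ).1
    rw [h1, inv_mul_eq_div, le_div_iff₀ (hcard n)]
    linarith
  have key : ∀ x : K, ∀ N : ℕ,
      ((x.supp ∩ G N).card ≤ 1 → ∑ n ∈ Finset.range N, b n x ≤ ((x.supp ∩ G N).card : ℝ)) ∧
      ∑ n ∈ Finset.range N, b n x ≤ 2 + (N : ℝ) * (1 / M) := by
    intro x N
    induction N with
    | zero => simp [hG0]
    | succ N ih =>
      obtain ⟨ih1, ih2⟩ := ih
      have hle1 : b N x ≤ ((x.supp ∩ B (G N)).card : ℝ) := by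
        rw [hb]
        apply div_le_self (Nat.cast_nonneg _)
        rw [hB2]; push_cast
        have : (0 : ℝ) ≤ M * rmax (G N) := by positivity
        linarith
      have hle2 : b N x ≤ 1 := by
        rw [hb, div_le_one (hcard N)]
        exact_mod_cast Finset.card_le_card Finset.inter_subset_right
      have hcu : (x.supp ∩ G (N + 1)).card = (x.supp ∩ G N).card + (x.supp ∩ B (G N)).card := by
        rw [hGs, Finset.inter_union_distrib_left, Finset.card_union_of_disjoint]
        exact (hdisj N).mono Finset.inter_subset_right Finset.inter_subset_right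
      have hMnn : (0 : ℝ) ≤ 1 / M := by positivity
      have hNM : (0 : ℝ) ≤ (N : ℝ) * (1 / M) := by positivity
      refine ⟨fun h => ?_, ?_⟩
      · rw [Finset.sum_range_succ, hcu]
        push_cast
        have := ih1 (by omega)
        linarith
      · rw [Finset.sum_range_succ]
        push_cast
        by_cases h : (x.supp ∩ G N).card ≤ 1
        · have h1 := ih1 h
          have h2 : ((x.supp ∩ G N).card : ℝ) ≤ 1 := by exact_mod_cast h
          nlinarith
        · have h1 := card_supp_le x (G N) (by omega)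
          have h2 : b N x ≤ 1 / M := by
            rw [hb]
            rcases Nat.eq_zero_or_pos M with hM0 | hM0
            · exfalso
              rw [hM0] at hM
              have : (0 : ℝ) ≤ 3 * ‖Λ‖ := mul_nonneg (by norm_num) Λ.opNorm_nonneg
              simp at hM
              linarith
            · rw [div_le_div_iff₀ (hcard N) (by exact_mod_cast hM0)]
              have h3 : (x.supp ∩ B (G N)).card ≤ rmax (G N) :=
                (Finset.card_le_card Finset.inter_subset_left).trans h1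
              have h4 : (x.supp ∩ B (G N)).card * M ≤ 1 * (B (G N)).card := by
                rw [hB2]
                nlinarith
              exact_mod_cast h4
          linarith
  let v : C(K, ℝ) := ∑ n ∈ Finset.range M, b n
  have hv : ‖v‖ ≤ 3 := by
    rw [ContinuousMap.norm_le _ (by norm_num)]
    intro x
    have h1 : v x = ∑ n ∈ Finset.range M, b n x := ContinuousMap.sum_apply _ _ _
    have h2 : 0 ≤ v x := by
      rw [h1]
      refine Finset.sum_nonneg fun n _ => ?_
      rw [hb]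
      positivity
    rw [Real.norm_eq_abs, abs_of_nonneg h2, h1]
    refine ((key x M).2).trans ?_
    rcases Nat.eq_zero_or_pos M with hM0 | hM0
    · simp [hM0]; norm_num
    · have : (M : ℝ) ≠ 0 := by exact_mod_cast hM0.ne'
      rw [mul_one_div_cancel this]
      norm_num
  have h1 : (M : ℝ) * η ≤ Λ v := by
    have : Λ v = ∑ n ∈ Finset.range M, Λ (b n) := map_sum _ _ _
    rw [this]
    calc (M : ℝ) * η = ∑ _n ∈ Finset.range M, η := by simp
      _ ≤ _ := Finset.sum_le_sum fun n _ => hΛb n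
  have h2 : Λ v ≤ 3 * ‖Λ‖ := by
    calc Λ v ≤ ‖Λ v‖ := le_abs_self _
      _ ≤ ‖Λ‖ * ‖v‖ := Λ.le_opNorm _
      _ ≤ ‖Λ‖ * 3 := mul_le_mul_of_nonneg_left hv Λ.opNorm_nonneg
      _ = 3 * ‖Λ‖ := mul_comm _ _
  linarith

/-- For a functional `Λ`, only countably many `Λ (ee γ)` do not vanish. -/
lemma countable_ne_zero (Λ : C(K, ℝ) →L[ℝ] ℝ) : {γ | Λ (ee γ) ≠ 0}.Countable := by
  have h1 : {γ | Λ (ee γ) ≠ 0} ⊆ ⋃ n : ℕ, ({γ | 1 / ((n : ℝ) + 1) ≤ Λ (ee γ)} ∪
      {γ | 1 / ((n : ℝ) + 1) ≤ (-Λ) (ee γ)}) := by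
    intro γ hγ
    obtain ⟨n, hn⟩ := exists_nat_one_div_lt (abs_pos.2 hγ)
    refine mem_iUnion.2 ⟨n, ?_⟩
    rcases le_or_gt 0 (Λ (ee γ)) with h | h
    · left; rw [abs_of_nonneg h] at hn; exact hn.le
    · right; rw [abs_of_neg h] at hn; exact hn.le
  refine (countable_iUnion fun n => ?_).mono h1
  exact (finite_ge Λ (by positivity)).countable.union (finite_ge (-Λ) (by positivity)).countable

end Pool.Agent.Lib.MP_9f8c44_an
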