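import Mathlib
import Pool.Agent.Lib.MP_9f8c44_an.WeakNull

set_option autoImplicit false

/-!
If some union of `ℵ₁` null sets is not null, then there is a Pettis integrable function with values
in `C(K)` which is not McShane integrable.
-/

namespace Pool.Agent.Lib.MP_9f8c44_an

open Set MeasureTheory BoxIntegral

section general

variable {X : Type} [TopologicalSpace X] [CompactSpace X]

lemma integralSum_apply {ι : Type} [Fintype ι] {B : Box ι} (f : (ι → ℝ) → C(X, ℝ))
    (π : TaggedPrepartition B) (x : X) :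
    (integralSum f BoxAdditiveMap.volume π) x =
      integralSum (fun t => f t x) BoxAdditiveMap.volume π := by
  rw [integralSum, integralSum, ContinuousMap.sum_apply]
  refine Finset.sum_congr rfl fun J _ => ?_
  rw [BoxAdditiveMap.volume_apply, BoxAdditiveMap.volume_apply]
  rfl

lemma hasIntegral_apply {ι : Type} [Fintype ι] {B : Box ι} {l : IntegrationParams}
    {f : (ι → ℝ) → C(X, ℝ)} {y : C(X, ℝ)} (h : HasIntegral B l f BoxAdditiveMap.volume y) (x : X) :
    HasIntegral B l (fun t => f t x) BoxAdditiveMap.volume (y x) := by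
  have h1 : Filter.Tendsto (fun π => (integralSum f BoxAdditiveMap.volume π) x)
      (l.toFilteriUnion B ⊤) (nhds (y x)) :=
    ((continuous_eval_const (F := C(X, ℝ)) x).tendsto y).comp h
  simp only [integralSum_apply] at h1
  exact h1

lemma integral_eq_zero_of_ae {ι : Type} [Fintype ι] {B : Box ι} {l : IntegrationParams}
    (hl : l.bRiemann = false)
    {f : (ι → ℝ) → C(X, ℝ)} (h : BoxIntegral.Integrable B l f BoxAdditiveMap.volume)
    (h0 : ∀ x, (fun t => f t x) =ᵐ[volume.restrict B] 0) :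
    BoxIntegral.integral B l f BoxAdditiveMap.volume = 0 := by
  ext x
  exact (hasIntegral_apply h.hasIntegral x).unique (HasIntegral.of_aeEq_zero (h0 x) hl)

open Classical in
/-- A tagged prepartition given by a family of disjoint boxes with tags. -/
noncomputable def tp {ι κ : Type} [Fintype κ] (B : Box ι) (bx : κ → Box ι)
    (hle : ∀ l, bx l ≤ B) (hd : ∀ l l', l ≠ l' → Disjoint (bx l : Set (ι → ℝ)) (bx l'))
    (t : κ → ι → ℝ) (ht : ∀ l, t l ∈ Box.Icc B) : TaggedPrepartition B where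
  boxes := Finset.univ.image bx
  le_of_mem' := by
    intro J hJ
    obtain ⟨l, -, rfl⟩ := Finset.mem_image.1 hJ
    exact hle l
  pairwiseDisjoint := by
    intro J hJ J' hJ' hne
    obtain ⟨l, -, rfl⟩ := Finset.mem_image.1 hJ
    obtain ⟨l', -, rfl⟩ := Finset.mem_image.1 hJ'
    exact hd l l' fun h => hne (by rw [h])
  tag := fun J => if h : ∃ l, bx l = J then t h.choose else B.upper
  tag_mem_Icc := by
    intro J
    split_ifs with h
    · exact ht _
    · exact B.upper_mem_Icc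

open Classical in
lemma tag_tp {ι κ : Type} [Fintype κ] (B : Box ι) (bx : κ → Box ι)
    (hle : ∀ l, bx l ≤ B) (hd : ∀ l l', l ≠ l' → Disjoint (bx l : Set (ι → ℝ)) (bx l'))
    (t : κ → ι → ℝ) (ht : ∀ l, t l ∈ Box.Icc B) (hinj : Function.Injective bx) (l : κ) :
    (tp B bx hle hd t ht).tag (bx l) = t l := by
  have h : ∃ l', bx l' = bx l := ⟨l, rfl⟩
  change (if h : ∃ l', bx l' = bx l then t h.choose else B.upper) = t l
  rw [dif_pos h]
  congr 1
  exact hinj h.choose_spec

lemma injective_of_disjoint {ι κ : Type} (bx : κ → Box ι)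
    (hd : ∀ l l', l ≠ l' → Disjoint (bx l : Set (ι → ℝ)) (bx l')) : Function.Injective bx := by
  intro l l' h
  by_contra hne
  have h1 := hd l l' hne
  rw [h, disjoint_self] at h1
  exact (bx l').nonempty_coe.ne_empty h1

lemma integralSum_tp {ι κ : Type} [Fintype ι] [Fintype κ] (B : Box ι) (bx : κ → Box ι)
    (hle : ∀ l, bx l ≤ B) (hd : ∀ l l', l ≠ l' → Disjoint (bx l : Set (ι → ℝ)) (bx l'))
    (t : κ → ι → ℝ) (ht : ∀ l, t l ∈ Box.Icc B) (f : (ι → ℝ) → C(X, ℝ)) :
    integralSum f BoxAdditiveMap.volume (tp B bx hle hd t ht) =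
      ∑ l, (∏ j, ((bx l).upper j - (bx l).lower j)) • f (t l) := by
  classical
  have hinj := injective_of_disjoint bx hd
  have h1 : (tp B bx hle hd t ht).boxes = Finset.univ.image bx := by
    unfold tp
    congr!
  rw [integralSum, h1, Finset.sum_image (fun l _ l' _ h => hinj h)]
  refine Finset.sum_congr rfl fun l _ => ?_
  rw [BoxAdditiveMap.volume_apply, tag_tp B bx hle hd t ht hinj]

lemma mem_tp {ι κ : Type} [Fintype κ] (B : Box ι) (bx : κ → Box ι)
    (hle : ∀ l, bx l ≤ B) (hd : ∀ l l', l ≠ l' → Disjoint (bx l : Set (ι → ℝ)) (bx l'))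
    (t : κ → ι → ℝ) (ht : ∀ l, t l ∈ Box.Icc B) (J : Box ι) :
    J ∈ tp B bx hle hd t ht ↔ ∃ l, bx l = J := by
  classical
  have h1 : (tp B bx hle hd t ht).boxes = Finset.univ.image bx := by
    unfold tp
    congr!
  change J ∈ (tp B bx hle hd t ht).boxes ↔ _
  rw [h1]
  simp

end general

theorem not_pettisEqMcShane (h : ¬ AlephOneNullUnions) : ¬ PettisEqMcShane K := by
  classical
  unfold AlephOneNullUnions at h
  push Not at h
  obtain ⟨ι, N, hcard, hnull, hpos⟩ := h
  -- reduction to an interval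
  obtain ⟨m, hm⟩ : ∃ m : ℤ, volume ((⋃ i, N i) ∩ Icc (m : ℝ) (m + 1)) ≠ 0 := by
    by_contra hcon
    push Not at hcon
    apply hpos
    refine measure_mono_null ?_ (measure_iUnion_null hcon)
    intro t ht
    exact mem_iUnion.2 ⟨⌊t⌋, ht, Int.floor_le t, (Int.lt_floor_add_one t).le⟩
  -- the injection
  have hj : Nonempty (ι ↪ I) := by rw [← Cardinal.le_def, mk_I]; exact hcard
  obtain ⟨j⟩ := hj
  let Y : Set ℝ := {t | t ∈ Icc (0:ℝ) 1 ∧ t + m ∈ ⋃ i, N i}
  have hY : volume Y ≠ 0 := by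
    intro h0
    apply hm
    rw [← measure_preimage_add_right volume (m : ℝ)]
    refine measure_mono_null ?_ h0
    rintro t ⟨ht1, ht2⟩
    refine ⟨⟨?_, ?_⟩, ht1⟩
    · have := ht2.1; simp only at this; linarith
    · have := ht2.2; simp only at this; linarith
  have hφ : ∀ t : ℝ, ∃ γ : I, t ∈ Y → ∃ i, γ = j i ∧ t + m ∈ N i := by
    intro t
    by_cases ht : t ∈ Y
    · obtain ⟨i, hi⟩ := mem_iUnion.1 ht.2
      exact ⟨j i, fun _ => ⟨i, rfl, hi⟩⟩
    · obtain ⟨b, _⟩ := exists_gt_of_countable (S := (∅ : Set I)) countable_empty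
      exact ⟨b, fun h => absurd h ht⟩
  choose φ hφ using hφ
  have hfib : ∀ γ, volume {t | t ∈ Y ∧ φ t = γ} = 0 := by
    intro γ
    by_cases hγ : ∃ i, j i = γ
    · obtain ⟨i, rfl⟩ := hγ
      refine measure_mono_null ?_ ((measure_preimage_add_right volume (m : ℝ) (N i)).trans
        (hnull i))
      rintro t ⟨ht, hti⟩
      obtain ⟨i', hi', hi''⟩ := hφ t ht
      rw [hi'] at hti
      rw [j.injective hti] at hi''
      exact hi''
    · have : {t | t ∈ Y ∧ φ t = γ} = ∅ := by
        ext t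
        simp only [Set.mem_ofPred_eq, Set.mem_empty_iff_false, iff_false, not_and]
        intro ht hti
        obtain ⟨i', hi', -⟩ := hφ t ht
        exact hγ ⟨i', by rw [← hi', hti]⟩
      rw [this, measure_empty]
  have hcount : ∀ S : Set I, S.Countable → volume {t | t ∈ Y ∧ φ t ∈ S} = 0 := by
    intro S hS
    refine measure_mono_null ?_ ((measure_biUnion_null_iff hS).2 fun γ _ => hfib γ)
    rintro t ⟨ht, htS⟩
    exact mem_iUnion₂.2 ⟨φ t, htS, ht, rfl⟩
  let f : ℝ → C(K, ℝ) := fun t => if t ∈ Y then ee (φ t) else 0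
  have hf0 : ∀ Λ : C(K, ℝ) →L[ℝ] ℝ, ∀ᵐ t, Λ (f t) = 0 := by
    intro Λ
    rw [ae_iff]
    refine measure_mono_null ?_ (hcount _ (countable_ne_zero Λ))
    intro t ht
    by_cases htY : t ∈ Y
    · refine ⟨htY, ?_⟩
      simpa [f, htY] using ht
    · exact absurd (by simp [f, htY]) ht
  have hP : PettisIntegrable f := by
    refine ⟨fun Λ => ?_, fun A _ _ => ⟨0, fun Λ => ?_⟩⟩
    · exact (integrable_zero ℝ ℝ (volume.restrict (Icc (0 : ℝ) 1))).congr
        ((ae_restrict_of_ae (hf0 Λ)).mono fun t ht => ht.symm)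
    · rw [map_zero]
      symm
      exact MeasureTheory.integral_eq_zero_of_ae (ae_restrict_of_ae (hf0 Λ))
  intro hall
  have hM : McShaneIntegrable f := hall f hP
  unfold McShaneIntegrable at hM
  set B : Box (Fin 1) := ⟨fun _ => (0 : ℝ), fun _ => (1 : ℝ), fun _ => (zero_lt_one : (0 : ℝ) < 1)⟩
    with hB
  set F : (Fin 1 → ℝ) → C(K, ℝ) := fun x => f (x 0) with hF
  have hF0 : ∀ x : K, (fun t => F t x) =ᵐ[volume] 0 := by
    intro x
    have h1 : ∀ᵐ t, f t x = 0 := hf0 (ContinuousMap.evalCLM ℝ x)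
    exact (volume_preserving_funUnique (Fin 1) ℝ).quasiMeasurePreserving.ae h1
  have hint : ∀ J : Box (Fin 1), J ≤ B →
      BoxIntegral.integral J IntegrationParams.McShane F BoxAdditiveMap.volume = 0 := by
    intro J hJ
    exact integral_eq_zero_of_ae rfl (hM.to_subbox hJ) fun x => ae_restrict_of_ae (hF0 x)
  -- the constant
  have hYfin : volume Y ≠ ⊤ := by
    refine ne_top_of_le_ne_top ?_ (measure_mono (fun t ht => ht.1 : Y ⊆ Icc (0 : ℝ) 1))
    simp
  set δ : ℝ := (volume Y).toReal / 2 with hδ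
  have hYr : 0 < (volume Y).toReal := ENNReal.toReal_pos hY hYfin
  have hδ0 : 0 < δ := by positivity
  have hδY : ENNReal.ofReal δ < volume Y := by
    rw [ENNReal.ofReal_lt_iff_lt_toReal hδ0.le hYfin]
    rw [hδ]; linarith
  set r := hM.convergenceR (δ / 2) 0 with hr
  let Yn : ℕ → Set ℝ := fun n => {t | t ∈ Y ∧ 1 / ((n : ℝ) + 1) < (r (fun _ => t) : ℝ)}
  have hYn : ⋃ n, Yn n = Y := by
    ext t
    rw [mem_iUnion]
    constructor
    · rintro ⟨n, hn⟩; exact hn.1
    · intro ht
      have hrpos : (0 : ℝ) < (r (fun _ => t) : ℝ) := (r (fun _ => t)).2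
      obtain ⟨n, hn⟩ := exists_nat_one_div_lt hrpos
      exact ⟨n, ht, hn⟩
  have hYmono : Monotone Yn := by
    intro a b hab t ht
    refine ⟨ht.1, lt_of_le_of_lt ?_ ht.2⟩
    apply one_div_le_one_div_of_le (by positivity)
    have : (a : ℝ) ≤ b := by exact_mod_cast hab
    linarith
  obtain ⟨n, hn⟩ : ∃ n, ENNReal.ofReal δ < volume (Yn n) := by
    rw [← hYn, hYmono.measure_iUnion] at hδY
    exact lt_iSup_iff.1 hδY
  set M : ℝ := (n : ℝ) + 1 with hMdef
  have hMpos : 0 < M := by positivity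
  let Jn : Fin (n + 1) → Set ℝ := fun i => Icc ((i : ℝ) / M) (((i : ℝ) + 1) / M)
  have hJvol : ∀ i, volume (Jn i) = ENNReal.ofReal (1 / M) := by
    intro i
    rw [Real.volume_Icc]
    congr 1
    field_simp
    ring
  have hcover : Yn n ⊆ ⋃ i, Yn n ∩ Jn i := by
    intro t ht
    have ht01 : t ∈ Icc (0 : ℝ) 1 := ht.1.1
    have hfl : ⌊t * M⌋₊ ≤ n + 1 := by
      have : (⌊t * M⌋₊ : ℝ) ≤ t * M := Nat.floor_le (mul_nonneg ht01.1 hMpos.le)
      have h2 : t * M ≤ M := by nlinarith [ht01.2]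
      have h3 : (⌊t * M⌋₊ : ℝ) ≤ ((n + 1 : ℕ) : ℝ) := by push_cast; linarith
      exact_mod_cast h3
    by_cases hlt : ⌊t * M⌋₊ < n + 1
    · refine mem_iUnion.2 ⟨⟨⌊t * M⌋₊, hlt⟩, ht, ?_, ?_⟩
      · change ((⌊t * M⌋₊ : ℕ) : ℝ) / M ≤ t
        rw [div_le_iff₀ hMpos]
        exact Nat.floor_le (mul_nonneg ht01.1 hMpos.le)
      · change t ≤ (((⌊t * M⌋₊ : ℕ) : ℝ) + 1) / M
        rw [le_div_iff₀ hMpos]
        exact (Nat.lt_floor_add_one _).le
    · have heq : ⌊t * M⌋₊ = n + 1 := by omega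
      have h1 : ((n : ℝ) + 1) ≤ t * M := by
        have := Nat.floor_le (mul_nonneg ht01.1 hMpos.le)
        rw [heq] at this
        push_cast at this
        exact this
      have ht1 : t = 1 := by
        apply le_antisymm ht01.2
        by_contra hcon
        push Not at hcon
        nlinarith
      refine mem_iUnion.2 ⟨Fin.last n, ht, ?_, ?_⟩
      · change ((n : ℕ) : ℝ) / M ≤ t
        rw [ht1, div_le_one hMpos, hMdef]
        linarith
      · change t ≤ (((n : ℕ) : ℝ) + 1) / M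
        rw [ht1, one_le_div hMpos]
  let S : Finset (Fin (n + 1)) := Finset.univ.filter fun i => volume (Yn n ∩ Jn i) ≠ 0
  set k := S.card with hk
  have hkM : δ < k / M := by
    have h1 : volume (Yn n) ≤ ∑ i, volume (Yn n ∩ Jn i) :=
      (measure_mono hcover).trans (measure_iUnion_fintype_le _ _)
    have h2 : ∑ i, volume (Yn n ∩ Jn i) = ∑ i ∈ S, volume (Yn n ∩ Jn i) := by
      symm
      apply Finset.sum_subset (Finset.subset_univ S)
      intro i _ hi
      by_contra hne
      exact hi (Finset.mem_filter.2 ⟨Finset.mem_univ i, hne⟩)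
    have h3 : ∑ i ∈ S, volume (Yn n ∩ Jn i) ≤ ∑ _i ∈ S, ENNReal.ofReal (1 / M) :=
      Finset.sum_le_sum fun i _ => (measure_mono inter_subset_right).trans (hJvol i).le
    have h4 : ∑ _i ∈ S, ENNReal.ofReal (1 / M) = ENNReal.ofReal (k / M) := by
      rw [Finset.sum_const, nsmul_eq_mul, ← ENNReal.ofReal_natCast,
        ← ENNReal.ofReal_mul (Nat.cast_nonneg _), mul_one_div]
    have h5 : ENNReal.ofReal δ < ENNReal.ofReal (k / M) := by
      calc ENNReal.ofReal δ < volume (Yn n) := hn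
        _ ≤ _ := h1
        _ = _ := h2
        _ ≤ _ := h3
        _ = _ := h4
    exact (ENNReal.ofReal_lt_ofReal_iff_of_nonneg hδ0.le).1 h5
  let σ : Fin k → Fin (n + 1) := fun l => (S.equivFin.symm l : Fin (n + 1))
  have hσinj : Function.Injective σ := fun l l' hll =>
    S.equivFin.symm.injective (Subtype.ext hll)
  have hσS : ∀ l, volume (Yn n ∩ Jn (σ l)) ≠ 0 := fun l =>
    (Finset.mem_filter.1 (S.equivFin.symm l).2).2
  have hunc : ∀ l, ¬ (φ '' (Yn n ∩ Jn (σ l))).Countable := by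
    intro l hcon
    apply hσS l
    refine measure_mono_null ?_ (hcount _ hcon)
    intro t ht
    exact ⟨ht.1.1, mem_image_of_mem φ ht⟩
  obtain ⟨γ, hγ1, hγ2⟩ := exists_free (fun β => {α | α < β ∧ rho α β < k})
    (fun β => finite_rho β k) (fun _ => ∅) (fun _ => countable_empty) k
    (fun l => φ '' (Yn n ∩ Jn (σ l))) hunc
  choose t ht htγ using hγ1
  have hmono : StrictMono γ := fun i j hij => (hγ2 i j hij).1
  let A : Finset I := Finset.univ.image γ
  have hAcard : A.card = k := by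
    rw [Finset.card_image_of_injective _ hmono.injective, Finset.card_univ, Fintype.card_fin]
  have hA : GoodSet A := by
    intro α hα β hβ hαβ
    obtain ⟨i, -, rfl⟩ := Finset.mem_image.1 hα
    obtain ⟨j, -, rfl⟩ := Finset.mem_image.1 hβ
    have hij : i < j := hmono.lt_iff_lt.1 hαβ
    rw [hAcard]
    have h1 := (hγ2 i j hij).2.1
    by_contra hlt
    exact h1 ⟨hαβ, not_le.1 hlt⟩
  have hcoord : ∀ i, (pt A hA).coord (γ i) = true := by
    intro i
    rw [coord_pt]
    exact decide_eq_true (Finset.mem_image_of_mem _ (Finset.mem_univ i))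
  -- the boxes
  have hlt : ∀ l : Fin k, ((σ l : ℕ) : ℝ) / M < (((σ l : ℕ) : ℝ) + 1) / M := fun l =>
    div_lt_div_of_pos_right (by linarith) hMpos
  let bx : Fin k → Box (Fin 1) := fun l =>
    ⟨fun _ => ((σ l : ℕ) : ℝ) / M, fun _ => (((σ l : ℕ) : ℝ) + 1) / M, fun _ => hlt l⟩
  have hble : ∀ l, bx l ≤ B := by
    intro l
    rw [Box.le_iff_bounds]
    refine ⟨fun i => ?_, fun i => ?_⟩
    · change (0 : ℝ) ≤ ((σ l : ℕ) : ℝ) / M
      positivity
    · change (((σ l : ℕ) : ℝ) + 1) / M ≤ 1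
      rw [div_le_one hMpos, hMdef]
      have : (σ l : ℕ) ≤ n := Nat.lt_succ_iff.1 (σ l).2
      have : ((σ l : ℕ) : ℝ) ≤ n := by exact_mod_cast this
      linarith
  have hbd : ∀ l l', l ≠ l' → Disjoint (bx l : Set (Fin 1 → ℝ)) (bx l') := by
    have aux : ∀ l l', σ l < σ l' → Disjoint (bx l : Set (Fin 1 → ℝ)) (bx l') := by
      intro l l' hll
      rw [Set.disjoint_left]
      intro x hx hx'
      have h1 : x 0 ≤ (((σ l : ℕ) : ℝ) + 1) / M := (hx 0).2
      have h2 : ((σ l' : ℕ) : ℝ) / M < x 0 := (hx' 0).1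
      have h3 : (σ l : ℕ) + 1 ≤ (σ l' : ℕ) := hll
      have h4 : ((σ l : ℕ) : ℝ) + 1 ≤ ((σ l' : ℕ) : ℝ) := by exact_mod_cast h3
      have h5 : (((σ l : ℕ) : ℝ) + 1) / M ≤ ((σ l' : ℕ) : ℝ) / M :=
        div_le_div_of_nonneg_right h4 hMpos.le
      linarith
    intro l l' hne
    rcases lt_or_gt_of_ne (fun h => hne (hσinj h)) with h' | h'
    · exact aux l l' h'
    · exact (aux l' l h').symm
  have htI : ∀ l, (fun _ => t l : Fin 1 → ℝ) ∈ Box.Icc B := by
    intro l
    have h1 : t l ∈ Icc (0 : ℝ) 1 := (ht l).1.1.1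
    exact ⟨fun _ => h1.1, fun _ => h1.2⟩
  let π := tp B bx hble hbd (fun l _ => t l) htI
  have hmem : IntegrationParams.McShane.MemBaseSet B 0 r π := by
    refine ⟨?_, fun h => absurd h (by simp [IntegrationParams.McShane]),
      fun h => absurd h (by simp [IntegrationParams.McShane]),
      fun h => absurd h (by simp [IntegrationParams.McShane])⟩
    intro J hJ
    obtain ⟨l, rfl⟩ := (mem_tp B bx hble hbd (fun l _ => t l) htI J).1 hJ
    have htag : π.tag (bx l) = fun _ => t l :=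
      tag_tp B bx hble hbd (fun l _ => t l) htI (injective_of_disjoint bx hbd) l
    rw [htag]
    intro x hx
    rw [Metric.mem_closedBall, dist_pi_le_iff (le_of_lt (r (fun _ => t l)).2)]
    intro i
    have hi : i = 0 := Subsingleton.elim _ _
    subst hi
    have h1 : ((σ l : ℕ) : ℝ) / M ≤ x 0 := hx.1 0
    have h2 : x 0 ≤ (((σ l : ℕ) : ℝ) + 1) / M := hx.2 0
    have h3 : ((σ l : ℕ) : ℝ) / M ≤ t l := (ht l).2.1
    have h4 : t l ≤ (((σ l : ℕ) : ℝ) + 1) / M := (ht l).2.2
    have h5 : (((σ l : ℕ) : ℝ) + 1) / M = ((σ l : ℕ) : ℝ) / M + 1 / M := by ring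
    have h6 : 1 / M < (r (fun _ => t l) : ℝ) := (ht l).1.2
    rw [Real.dist_eq, abs_le]
    constructor <;> linarith
  have hhen := hM.dist_integralSum_sum_integral_le_of_memBaseSet (half_pos hδ0) hmem
  have hz : ∑ J ∈ π.boxes,
      BoxIntegral.integral J IntegrationParams.McShane F BoxAdditiveMap.volume = 0 :=
    Finset.sum_eq_zero fun J hJ => hint J (π.le_of_mem' J hJ)
  rw [hz, dist_zero_right] at hhen
  have hval : (integralSum F BoxAdditiveMap.volume π) (pt A hA) = k / M := by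
    rw [integralSum_tp, ContinuousMap.sum_apply]
    have : ∀ l : Fin k, ((∏ j, ((bx l).upper j - (bx l).lower j)) • F (fun _ => t l)) (pt A hA)
        = 1 / M := by
      intro l
      have h1 : F (fun _ => t l) = ee (γ l) := by
        have h2 : t l ∈ Y := (ht l).1.1
        have h3 : φ (t l) = γ l := htγ l
        simp [hF, f, h2, h3]
      rw [h1]
      change (∏ j, ((bx l).upper j - (bx l).lower j)) * (ee (γ l) (pt A hA)) = 1 / M
      rw [ee_apply, hcoord l]
      simp only [Finset.univ_unique, Fin.default_eq_zero, Fin.isValue, Finset.prod_singleton,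
        if_true, mul_one]
      change (((σ l : ℕ) : ℝ) + 1) / M - ((σ l : ℕ) : ℝ) / M = 1 / M
      ring
    rw [Finset.sum_congr rfl fun l _ => this l]
    simp
    ring
  have hfin : k / M ≤ δ / 2 := by
    calc (k : ℝ) / M = (integralSum F BoxAdditiveMap.volume π) (pt A hA) := hval.symm
      _ ≤ ‖(integralSum F BoxAdditiveMap.volume π) (pt A hA)‖ := le_abs_self _
      _ ≤ ‖integralSum F BoxAdditiveMap.volume π‖ := ContinuousMap.norm_coe_le_norm _ _
      _ ≤ δ / 2 := hhen
  linarith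

end Pool.Agent.Lib.MP_9f8c44_an
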