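import Mathlib
import Pool.Agent.Lib.MP_9f8c44_an.Space

set_option autoImplicit false

/-!
`K` is not a uniform Eberlein compact space.
-/

namespace Pool.Agent.Lib.MP_9f8c44_an

open Set RealInnerProductSpace

lemma exists_finite_nhds (g : K → ℝ) (hg : Continuous g) (z : K) {ε : ℝ} (hε : 0 < ε) :
    ∃ F : Set I, F.Finite ∧ ∀ x : K, (∀ i ∈ F, x.coord i = z.coord i) → |g x - g z| < ε := by
  have h1 : {x | |g x - g z| < ε} ∈ nhds z := by
    have : Filter.Tendsto (fun x => |g x - g z|) (nhds z) (nhds |g z - g z|) :=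
      (hg.sub continuous_const).abs.tendsto z
    refine this.eventually_lt_const ?_
    simpa using hε
  obtain ⟨U, hU, hUs⟩ := (mem_nhds_subtype _ _ _).1 h1
  rw [nhds_pi, Filter.mem_pi] at hU
  obtain ⟨F, hF, t, ht, hFt⟩ := hU
  refine ⟨F, hF, fun x hx => ?_⟩
  have h2 : x.1 ∈ U := hFt (fun i hi => by
    have h3 : x.1 i = z.1 i := hx i hi
    rw [h3]
    exact mem_of_mem_nhds (ht i))
  exact hUs h2

/-- The empty set as a point of `K`. -/
noncomputable def z0 : K := pt ∅ (by intro α hα; simp at hα)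

/-- The singletons as points of `K`. -/
noncomputable def zs (i : I) : K := pt {i} (goodSet_singleton i)

@[simp] lemma coord_z0 (i : I) : z0.coord i = false := by simp [z0]

lemma coord_zs (i j : I) : (zs i).coord j = decide (j = i) := by simp [zs]

theorem not_isUniformEberlein_K : ¬ IsUniformEberlein K := by
  rintro ⟨H, i1, i2, i3, e, he⟩
  let u : K → H := fun x => (toWeakSpace ℝ H).symm (e x)
  have hu : ∀ w : H, Continuous fun x => ⟪w, u x⟫ := by
    intro w
    exact (WeakBilin.eval_continuous (topDualPairing ℝ H).flip (innerSL ℝ w)).comp he.continuous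
  have huinj : Function.Injective u := fun x y hxy =>
    he.injective ((toWeakSpace ℝ H).symm.injective hxy)
  -- boundedness
  obtain ⟨C, hC⟩ : ∃ C, ∀ x, ‖u x‖ ≤ C := by
    have h1 : ∀ w : H, ∃ C, ∀ x : K, ‖innerSL ℝ (u x) w‖ ≤ C := by
      intro w
      obtain ⟨C, hC⟩ := (isCompact_range (hu w)).isBounded.exists_norm_le
      refine ⟨C, fun x => ?_⟩
      rw [innerSL_apply_apply, real_inner_comm]
      exact hC _ (mem_range_self x)
    obtain ⟨C, hC⟩ := banach_steinhaus h1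
    exact ⟨C, fun x => by simpa using hC x⟩
  let h : I → H := fun γ => u (zs γ) - u z0
  have h0 : ∀ γ, h γ ≠ 0 := by
    intro γ hγ
    have h1 : zs γ = z0 := huinj (sub_eq_zero.1 hγ)
    have h2 : (zs γ).coord γ = z0.coord γ := by rw [h1]
    simp [coord_zs] at h2
  -- the finite sets
  have hF : ∀ γ, ∃ F : Set I, F.Finite ∧ ∀ x : K, x.coord γ = true →
      (∀ i ∈ F, i ≠ γ → x.coord i = false) → ‖h γ‖ ^ 2 / 2 ≤ ⟪h γ, u x - u z0⟫ := by
    intro γ
    have hpos : 0 < ‖h γ‖ ^ 2 / 2 := by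
      have := norm_pos_iff.2 (h0 γ)
      positivity
    obtain ⟨F, hF, hF'⟩ := exists_finite_nhds _ (hu (h γ)) (zs γ) hpos
    refine ⟨F, hF, fun x hx1 hx2 => ?_⟩
    have h1 := hF' x (by
      intro i hi
      rw [coord_zs]
      by_cases hiγ : i = γ
      · subst hiγ; simpa using hx1
      · simpa [hiγ] using hx2 i hi hiγ)
    have h2 : ⟪h γ, u x - u z0⟫ = (⟪h γ, u x⟫ - ⟪h γ, u (zs γ)⟫) + ‖h γ‖ ^ 2 := by
      rw [inner_sub_right, ← real_inner_self_eq_norm_sq (h γ)]
      conv_rhs => rw [show ⟪h γ, h γ⟫ = ⟪h γ, u (zs γ)⟫ - ⟪h γ, u z0⟫ from inner_sub_right _ _ _]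
      ring
    rw [h2]
    have h3 := (abs_lt.1 h1).1
    linarith
  choose F hFfin hF using hF
  -- countably many non-orthogonal
  have hG : ∀ γ, {η | ⟪h γ, h η⟫ ≠ 0}.Countable := by
    intro γ
    have h1 : ∀ m : ℕ, ∃ F : Set I, F.Finite ∧ ∀ x : K, (∀ i ∈ F, x.coord i = z0.coord i) →
        |⟪h γ, u x⟫ - ⟪h γ, u z0⟫| < 1 / ((m : ℝ) + 1) := fun m =>
      exists_finite_nhds _ (hu (h γ)) z0 (by positivity)
    choose A hA hA' using h1
    refine (countable_iUnion fun m => (hA m).countable).mono ?_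
    intro η hη
    by_contra hcon
    rw [mem_iUnion] at hcon
    push Not at hcon
    apply hη
    have h2 : ∀ m : ℕ, |⟪h γ, h η⟫| < 1 / ((m : ℝ) + 1) := by
      intro m
      have := hA' m (zs η) (by
        intro i hi
        rw [coord_zs, coord_z0]
        have : i ≠ η := fun h => hcon m (h ▸ hi)
        simpa using this)
      rwa [← inner_sub_right] at this
    by_contra h3
    obtain ⟨m, hm⟩ := exists_nat_one_div_lt (abs_pos.2 h3)
    exact absurd (h2 m) (not_lt.2 hm.le)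
  -- an uncountable set with a lower bound
  obtain ⟨n, hn⟩ : ∃ n : ℕ, ¬ {γ | 1 / ((n : ℝ) + 1) ≤ ‖h γ‖ ^ 2}.Countable := by
    by_contra hcon
    push Not at hcon
    apply not_countable_univ
    refine (countable_iUnion hcon).mono fun γ _ => ?_
    have hpos : 0 < ‖h γ‖ ^ 2 := by
      have := norm_pos_iff.2 (h0 γ)
      positivity
    obtain ⟨m, hm⟩ := exists_nat_one_div_lt hpos
    exact mem_iUnion.2 ⟨m, hm.le⟩
  -- choose the number of points
  obtain ⟨k, hk⟩ := exists_nat_gt (16 * C ^ 2 * ((n : ℝ) + 1))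
  obtain ⟨γ, hγ1, hγ2⟩ := exists_free
    (fun β => F β ∪ {α | α < β ∧ rho α β < k})
    (fun β => (hFfin β).union (finite_rho β k))
    (fun α => F α ∪ {η | ⟪h α, h η⟫ ≠ 0})
    (fun α => (hFfin α).countable.union (hG α)) k
    (fun _ => {γ | 1 / ((n : ℝ) + 1) ≤ ‖h γ‖ ^ 2}) (fun _ => hn)
  have hmono : StrictMono γ := fun i j hij => (hγ2 i j hij).1
  classical
  let A : Finset I := Finset.univ.image γ
  have hcard : A.card = k := by
    rw [Finset.card_image_of_injective _ hmono.injective, Finset.card_univ, Fintype.card_fin]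
  have hA : GoodSet A := by
    intro α hα β hβ hαβ
    obtain ⟨i, -, rfl⟩ := Finset.mem_image.1 hα
    obtain ⟨j, -, rfl⟩ := Finset.mem_image.1 hβ
    have hij : i < j := hmono.lt_iff_lt.1 hαβ
    rw [hcard]
    have h1 := (hγ2 i j hij).2.1
    by_contra hlt
    exact h1 (Or.inr ⟨hαβ, not_le.1 hlt⟩)
  have hcoord : ∀ i, (pt A hA).coord (γ i) = true := by
    intro i
    rw [coord_pt]
    exact decide_eq_true (Finset.mem_image_of_mem _ (Finset.mem_univ i))
  have hfree : ∀ i j, i ≠ j → γ j ∉ F (γ i) := by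
    intro i j hij
    rcases lt_or_gt_of_ne hij with hlt | hlt
    · exact fun hmem => (hγ2 i j hlt).2.2 (Or.inl hmem)
    · exact fun hmem => (hγ2 j i hlt).2.1 (Or.inl hmem)
  have horth : ∀ i j, i ≠ j → ⟪h (γ i), h (γ j)⟫ = 0 := by
    intro i j hij
    rcases lt_or_gt_of_ne hij with hlt | hlt
    · by_contra hne
      exact (hγ2 i j hlt).2.2 (Or.inr hne)
    · by_contra hne
      rw [real_inner_comm] at hne
      exact (hγ2 j i hlt).2.2 (Or.inr hne)
  set w : H := ∑ i, h (γ i) with hw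
  have hwnorm : ‖w‖ ^ 2 = ∑ i, ‖h (γ i)‖ ^ 2 := by
    rw [← real_inner_self_eq_norm_sq, hw, sum_inner]
    refine Finset.sum_congr rfl fun i _ => ?_
    rw [inner_sum, Finset.sum_eq_single i]
    · rw [real_inner_self_eq_norm_sq]
    · intro j _ hji
      exact horth i j hji.symm
    · intro h'; exact absurd (Finset.mem_univ i) h'
  have hlow : ‖w‖ ^ 2 / 2 ≤ ⟪w, u (pt A hA) - u z0⟫ := by
    rw [hwnorm, hw, sum_inner, Finset.sum_div]
    refine Finset.sum_le_sum fun i _ => ?_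
    refine hF (γ i) _ (hcoord i) fun a ha hne => ?_
    rw [coord_pt]
    refine decide_eq_false fun hmem => ?_
    obtain ⟨j, -, rfl⟩ := Finset.mem_image.1 hmem
    have hij : i ≠ j := fun h' => hne (by rw [h'])
    exact hfree i j hij ha
  have hup : ⟪w, u (pt A hA) - u z0⟫ ≤ ‖w‖ * (2 * C) := by
    refine (real_inner_le_norm _ _).trans (mul_le_mul_of_nonneg_left ?_ (norm_nonneg _))
    calc ‖u (pt A hA) - u z0‖ ≤ ‖u (pt A hA)‖ + ‖u z0‖ := norm_sub_le _ _
      _ ≤ C + C := add_le_add (hC _) (hC _)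
      _ = 2 * C := by ring
  have hC0 : 0 ≤ C := (norm_nonneg _).trans (hC z0)
  have hw2 : ‖w‖ ≤ 4 * C := by
    by_contra hcon
    push Not at hcon
    have hwpos : 0 < ‖w‖ := lt_of_le_of_lt (by positivity) hcon
    nlinarith
  have hw3 : ‖w‖ ^ 2 ≤ 16 * C ^ 2 := by nlinarith [norm_nonneg w]
  have hw4 : (k : ℝ) * (1 / ((n : ℝ) + 1)) ≤ ‖w‖ ^ 2 := by
    rw [hwnorm]
    calc (k : ℝ) * (1 / ((n : ℝ) + 1)) = ∑ _i : Fin k, (1 / ((n : ℝ) + 1)) := by simp
      _ ≤ ∑ i, ‖h (γ i)‖ ^ 2 := Finset.sum_le_sum fun i _ => hγ1 i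
  have hn1 : (0 : ℝ) < (n : ℝ) + 1 := by positivity
  have : (k : ℝ) ≤ 16 * C ^ 2 * ((n : ℝ) + 1) := by
    have h1 : (k : ℝ) * (1 / ((n : ℝ) + 1)) ≤ 16 * C ^ 2 := hw4.trans hw3
    rw [mul_one_div, div_le_iff₀ hn1] at h1
    exact h1
  linarith

end Pool.Agent.Lib.MP_9f8c44_an
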