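import Mathlib

set_option autoImplicit false

/-!
An Orlicz–Pettis type lemma for the pointwise topology of `C(X)`.
-/

namespace Pool.Agent.Lib.MP_9f8c44_an

open Set Filter Topology

lemma exists_tail {c : ℕ → ℝ} (hc : Summable c) {ε : ℝ} (hε : 0 < ε) :
    ∃ N : ℕ, ∃ S : ℝ, S ≤ ε ∧ HasSum (fun n => if N ≤ n then c n else 0) S := by
  have h1 : Tendsto (fun N => ∑ n ∈ Finset.range N, c n) atTop (𝓝 (∑' n, c n)) :=
    hc.hasSum.tendsto_sum_nat
  obtain ⟨N, hN⟩ := (h1.eventually (lt_mem_nhds (show ∑' n, c n - ε < ∑' n, c n by linarith))).exists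
  refine ⟨N, ∑' n, c n - ∑ n ∈ Finset.range N, c n, by linarith, ?_⟩
  have h2 : HasSum (fun n => if n ∈ Finset.range N then c n else 0)
      (∑ n ∈ Finset.range N, c n) := by
    have : HasSum (fun n => if n ∈ Finset.range N then c n else 0)
        (∑ n ∈ Finset.range N, if n ∈ Finset.range N then c n else 0) :=
      hasSum_sum_of_ne_finset_zero (by intro n hn; simp only [if_neg hn])
    rwa [Finset.sum_congr rfl (fun n hn => if_pos hn)] at this
  have h3 := hc.hasSum.sub h2
  have heq : (fun n => if N ≤ n then c n else 0) =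
      fun n => c n - if n ∈ Finset.range N then c n else 0 := by
    funext n
    by_cases h : N ≤ n
    · simp [h, not_lt.2 h]
    · simp [not_le.1 h, h]
  rw [heq]
  exact h3

theorem orlicz_pettis {X : Type} [TopologicalSpace X]
    (hseq : ∀ u : ℕ → X, ∃ z : X, ∃ φ : ℕ → ℕ, StrictMono φ ∧ Tendsto (u ∘ φ) atTop (𝓝 z))
    (y : ℕ → C(X, ℝ))
    (hy : ∀ σ : Set ℕ, ∃ s : C(X, ℝ), ∀ x, HasSum (σ.indicator fun n => y n x) (s x))
    {ε : ℝ} (hε : 0 < ε) (x : ℕ → X) (hx : ∀ n, ε ≤ |y n (x n)|) : False := by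
  classical
  -- reduce to a convergent sequence
  wlog hconv : ∃ z, Tendsto x atTop (𝓝 z) generalizing x y
  · obtain ⟨z, φ, hφ, hz⟩ := hseq x
    refine this (y ∘ φ) (fun σ => ?_) (x ∘ φ) (fun n => hx _) ⟨z, hz⟩
    obtain ⟨s, hs⟩ := hy (φ '' σ)
    refine ⟨s, fun p => ?_⟩
    have h1 := hs p
    rw [← hφ.injective.hasSum_iff] at h1
    · convert h1 using 1
      funext n
      by_cases hn : n ∈ σ
      · simp [hn, hφ.injective.mem_set_image]
      · simp [hn, hφ.injective.mem_set_image]
    · intro n hn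
      apply indicator_of_notMem
      rintro ⟨m, -, rfl⟩
      exact hn (mem_range_self m)
  obtain ⟨z, hz⟩ := hconv
  have hsum : ∀ p, Summable fun n => y n p := by
    intro p
    obtain ⟨s, hs⟩ := hy univ
    have := (hs p).summable
    rwa [indicator_univ] at this
  let lam : ℕ → C(X, ℝ) → ℝ := fun n h => h (x n) - h z
  have hlam : ∀ h : C(X, ℝ), Tendsto (fun n => lam n h) atTop (𝓝 0) := by
    intro h
    have := ((h.continuous.tendsto z).comp hz).sub_const (h z)
    simpa [lam] using this
  have hlamy : ∀ m, Summable fun n => |lam m (y n)| := by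
    intro m
    exact ((hsum (x m)).sub (hsum z)).abs
  -- the lower bound
  obtain ⟨n₀, hn₀⟩ : ∃ n₀, ∀ n, n₀ ≤ n → ε / 2 ≤ |lam n (y n)| := by
    have h1 : Tendsto (fun n => |y n z|) atTop (𝓝 0) := by
      simpa using (hsum z).tendsto_atTop_zero.abs
    obtain ⟨n₀, hn₀⟩ := eventually_atTop.1 (h1.eventually (gt_mem_nhds (half_pos hε)))
    refine ⟨n₀, fun n hn => ?_⟩
    have h2 := hn₀ n hn
    have h3 := hx n
    have h4 : |y n (x n)| - |y n z| ≤ |y n (x n) - y n z| := abs_sub_abs_le_abs_sub _ _
    change ε / 2 ≤ |y n (x n) - y n z|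
    linarith
  have htail : ∀ m : ℕ, ∃ N : ℕ, ∃ S : ℝ, S ≤ ε / 8 ∧
      HasSum (fun n => if N ≤ n then |lam m (y n)| else 0) S := fun m =>
    exists_tail (hlamy m) (by positivity)
  choose N S hS1 hS2 using htail
  obtain ⟨k, hk1, hk2⟩ := exists_seq_of_forall_finset_exists (fun n => n₀ ≤ n)
    (fun m n => m < n ∧ N m ≤ n ∧ |lam n (y m)| ≤ ε / 16 * (1 / 2) ^ m) (by
      intro s _
      have : ∀ᶠ n in atTop, n₀ ≤ n ∧ ∀ m ∈ s,
          (m < n ∧ N m ≤ n ∧ |lam n (y m)| ≤ ε / 16 * (1 / 2) ^ m) := by
        refine (eventually_ge_atTop n₀).and ((Finset.eventually_all s).2 fun m _ => ?_)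
        refine (eventually_gt_atTop m).and ((eventually_ge_atTop (N m)).and ?_)
        have h1 : Tendsto (fun n => |lam n (y m)|) atTop (𝓝 0) := by simpa using (hlam (y m)).abs
        exact h1.eventually (ge_mem_nhds (by positivity))
      obtain ⟨n, hn⟩ := this.exists
      exact ⟨n, hn⟩)
  have hmono : StrictMono k := strictMono_nat_of_lt_succ fun n => (hk2 n (n + 1) (Nat.lt_succ_self n)).1
  obtain ⟨s, hs⟩ := hy (range k)
  have hlow : ∀ j, ε / 4 ≤ |lam (k j) s| := by
    intro j
    let a : ℕ → ℝ := (range k).indicator fun n => lam (k j) (y n)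
    have ha : HasSum a (lam (k j) s) := by
      have h1 := (hs (x (k j))).sub (hs z)
      have heq : a = fun b => (range k).indicator (fun n => (y n) (x (k j))) b -
          (range k).indicator (fun n => (y n) z) b := by
        funext n
        by_cases hn : n ∈ range k
        · simp only [a, indicator_of_mem hn]; rfl
        · simp only [a, indicator_of_notMem hn, sub_zero]
      rw [heq]
      exact h1
    have haj : a (k j) = lam (k j) (y (k j)) := indicator_of_mem (mem_range_self j) _
    have h1 : lam (k j) s = a (k j) + ∑' n, ite (n = k j) 0 (a n) := by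
      rw [← ha.tsum_eq]
      exact ha.summable.tsum_eq_add_tsum_ite (k j)
    have hgeo : HasSum (fun n : ℕ => ε / 16 * (1 / 2) ^ n) (ε / 16 * 2) :=
      hasSum_geometric_two.mul_left _
    have h2 : ‖∑' n, ite (n = k j) 0 (a n)‖ ≤ ε / 16 * 2 + S (k j) := by
      refine tsum_of_norm_bounded (hgeo.add (hS2 (k j))) fun n => ?_
      have hp1 : 0 ≤ ε / 16 * (1 / 2) ^ n := by positivity
      have hp2 : 0 ≤ (if N (k j) ≤ n then |lam (k j) (y n)| else 0) := by
        split_ifs
        · exact abs_nonneg _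
        · exact le_rfl
      by_cases hn : n = k j
      · rw [if_pos hn, norm_zero]; positivity
      · rw [if_neg hn]
        by_cases hnr : n ∈ range k
        · obtain ⟨i, rfl⟩ := hnr
          have hai : a (k i) = lam (k j) (y (k i)) := indicator_of_mem (mem_range_self i) _
          rw [hai, Real.norm_eq_abs]
          have hij : i ≠ j := fun h => hn (by rw [h])
          rcases lt_or_gt_of_ne hij with h | h
          · have := (hk2 i j h).2.2
            linarith
          · have := (hk2 j i h).2.1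
            rw [if_pos this]
            linarith
        · have : a n = 0 := indicator_of_notMem hnr _
          rw [this, norm_zero]; positivity
    have h3 := hn₀ (k j) (hk1 j)
    rw [Real.norm_eq_abs] at h2
    have h4 := hS1 (k j)
    have h5 : |a (k j)| - |∑' n, ite (n = k j) 0 (a n)| ≤
        |a (k j) + ∑' n, ite (n = k j) 0 (a n)| := by
      have := abs_sub_abs_le_abs_sub (a (k j)) (-∑' n, ite (n = k j) 0 (a n))
      rwa [abs_neg, sub_neg_eq_add] at this
    rw [h1]
    rw [haj] at h5 ⊢
    linarith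
  have hlim : Tendsto (fun j => |lam (k j) s|) atTop (𝓝 0) := by
    simpa using ((hlam s).comp hmono.tendsto_atTop).abs
  obtain ⟨j, hj⟩ := (hlim.eventually (gt_mem_nhds (show (0 : ℝ) < ε / 4 by positivity))).exists
  exact absurd (hlow j) (not_le.2 hj)

end Pool.Agent.Lib.MP_9f8c44_an
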