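import Mathlib
import Pool.Agent.Lib.MP_9f8c44_an.OrliczPettis

set_option autoImplicit false

/-!
Strongly measurable Pettis integrable functions with values in `C(X)`, `X` sequentially compact,
are McShane integrable.
-/

namespace Pool.Agent.Lib.MP_9f8c44_an

open Set Filter Topology MeasureTheory BoxIntegral

open scoped NNReal

theorem uniform_tail {Ω : Type} [MeasurableSpace Ω] (μ : Measure Ω) {X : Type}
    [TopologicalSpace X] [CompactSpace X]
    (hseq : ∀ u : ℕ → X, ∃ z : X, ∃ φ : ℕ → ℕ, StrictMono φ ∧ Tendsto (u ∘ φ) atTop (𝓝 z))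
    (G : Ω → C(X, ℝ)) (hG : StronglyMeasurable G) (B : Set Ω)
    (h1 : ∀ x, IntegrableOn (fun t => G t x) B μ)
    (h2 : ∀ A, MeasurableSet A → A ⊆ B → ∃ y : C(X, ℝ), ∀ x, y x = ∫ t in A, G t x ∂μ)
    {ε : ℝ} (hε : 0 < ε) :
    ∃ N : ℕ, ∀ A, MeasurableSet A → A ⊆ B → (∀ t ∈ A, (N : ℝ) ≤ ‖G t‖) →
      ∀ x, |∫ t in A, G t x ∂μ| ≤ ε := by
  classical
  by_contra hcon
  push Not at hcon
  have hstep : ∀ N : ℕ, ∃ M : ℕ, N < M ∧ ∃ A, MeasurableSet A ∧ A ⊆ B ∧
      (∀ t ∈ A, (N : ℝ) ≤ ‖G t‖ ∧ ‖G t‖ < M) ∧ ∃ x, ε ≤ |∫ t in A, G t x ∂μ| := by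
    intro N
    obtain ⟨A, hA, hAB, hAN, x, hx⟩ := hcon N
    let s : ℕ → Set Ω := fun M => A ∩ {t | ‖G t‖ < M}
    have hs : ∀ M, MeasurableSet (s M) := fun M =>
      hA.inter (measurableSet_lt hG.norm.measurable measurable_const)
    have hmono : Monotone s := by
      intro a b hab t ht
      have hab' : (a : ℝ) ≤ b := Nat.cast_le.2 hab
      exact ⟨ht.1, lt_of_lt_of_le (show ‖G t‖ < a from ht.2) hab'⟩
    have hU : ⋃ M, s M = A := by
      ext t
      rw [mem_iUnion]
      constructor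
      · rintro ⟨M, hM⟩; exact hM.1
      · intro ht
        obtain ⟨M, hM⟩ := exists_nat_gt ‖G t‖
        exact ⟨M, ht, hM⟩
    have hlim := tendsto_setIntegral_of_monotone (f := fun t => G t x) hs hmono
      (by rw [hU]; exact (h1 x).mono_set hAB)
    rw [hU] at hlim
    obtain ⟨M, hM1, hM2⟩ := ((hlim.abs.eventually (lt_mem_nhds hx)).and
      (eventually_gt_atTop N)).exists
    exact ⟨M, hM2, s M, hs M, inter_subset_left.trans hAB, fun t ht => ⟨hAN t ht.1, ht.2⟩, x,
      hM1.le⟩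
  choose M hNM A hA hAB hAt x hx using hstep
  let N : ℕ → ℕ := fun k => Nat.rec 0 (fun _ n => M n) k
  have hNs : ∀ k, N (k + 1) = M (N k) := fun k => rfl
  have hNmono : StrictMono N := strictMono_nat_of_lt_succ fun k => by rw [hNs]; exact hNM _
  have hdisj : ∀ i j, i < j → Disjoint (A (N i)) (A (N j)) := by
    intro i j hij
    rw [Set.disjoint_left]
    intro t ht ht'
    have h3 := (hAt _ t ht).2
    have h4 := (hAt _ t ht').1
    rw [← hNs] at h3
    have h5 : N (i + 1) ≤ N j := hNmono.monotone hij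
    have h6 := (Nat.cast_le (α := ℝ)).2 h5
    linarith
  choose y hy using fun k => h2 (A (N k)) (hA _) (hAB _)
  refine orlicz_pettis hseq y (fun σ => ?_) hε (fun k => x (N k)) fun k => ?_
  · let D : ℕ → Set Ω := fun k => if k ∈ σ then A (N k) else ∅
    have hDsub : ∀ k, D k ⊆ A (N k) := by
      intro k
      by_cases hk : k ∈ σ
      · simp [D, hk]
      · simp [D, hk]
    have hD : ∀ k, MeasurableSet (D k) := by
      intro k
      by_cases hk : k ∈ σ
      · simp [D, hk, hA]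
      · simp [D, hk]
    have hDB : ⋃ k, D k ⊆ B := iUnion_subset fun k => (hDsub k).trans (hAB _)
    obtain ⟨s, hs⟩ := h2 (⋃ k, D k) (MeasurableSet.iUnion hD) hDB
    refine ⟨s, fun p => ?_⟩
    have hsum := hasSum_integral_iUnion (f := fun t => G t p) (μ := μ) hD (by
      intro i j hij
      rcases lt_or_gt_of_ne hij with h | h
      · exact (hdisj i j h).mono (hDsub i) (hDsub j)
      · exact ((hdisj j i h).mono (hDsub j) (hDsub i)).symm) ((h1 p).mono_set hDB)
    rw [← hs p] at hsum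
    have heq : (σ.indicator fun k => y k p) = fun k => ∫ t in D k, G t p ∂μ := by
      funext k
      by_cases hk : k ∈ σ
      · rw [indicator_of_mem hk, hy k p]
        simp [D, hk]
      · rw [indicator_of_notMem hk]
        simp [D, hk]
    rw [heq]
    exact hsum
  · rw [hy k]
    exact hx (N k)

lemma henstock_group {ι E : Type} [Fintype ι] [NormedAddCommGroup E] [NormedSpace ℝ E]
    [CompleteSpace E] {B : Box ι}
    {l : IntegrationParams} {F : ℕ → (ι → ℝ) → E}
    (hF : ∀ n, BoxIntegral.Integrable B l (F n) BoxAdditiveMap.volume) (N : (ι → ℝ) → ℕ)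
    (δ : ℕ → ℝ≥0) (δ0 : ∀ n, 0 < δ n) {c' : ℝ≥0} (hδ : HasSum δ c') {c : ℝ≥0}
    {r : (ι → ℝ) → Ioi (0 : ℝ)} {π : TaggedPrepartition B} (hπ : l.MemBaseSet B c r π)
    (hr : ∀ t, r t ≤ (hF (N t)).convergenceR (δ (N t)) c t) :
    dist (∑ J ∈ π.boxes, BoxAdditiveMap.volume J (F (N (π.tag J)) (π.tag J)))
      (∑ J ∈ π.boxes, BoxIntegral.integral J l (F (N (π.tag J))) BoxAdditiveMap.volume) ≤ c' := by
  rw [← π.sum_fiberwise fun J => N (π.tag J), ← π.sum_fiberwise fun J => N (π.tag J)]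
  refine (dist_sum_sum_le_of_le _ fun n hn => ?_).trans
    (sum_le_hasSum _ (fun n _ => (δ n).2) (NNReal.hasSum_coe.2 hδ))
  have hNn : ∀ J ∈ π.filter fun J => N (π.tag J) = n, N (π.tag J) = n := fun J hJ =>
    (π.mem_filter.1 hJ).2
  have hrn : ∀ J ∈ π.filter fun J => N (π.tag J) = n,
      r (π.tag J) ≤ (hF n).convergenceR (δ n) c (π.tag J) := fun J hJ ↦ by
    obtain rfl := hNn J hJ
    exact hr _
  have hmem : l.MemBaseSet B c ((hF n).convergenceR (δ n) c)
      (π.filter fun J => N (π.tag J) = n) :=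
    (hπ.filter _).mono' _ le_rfl le_rfl fun J hJ => hrn J hJ
  convert! (hF n).dist_integralSum_sum_integral_le_of_memBaseSet (δ0 _) hmem using 2
  · refine Finset.sum_congr rfl fun J hJ => ?_
    rw [hNn J hJ]
    rfl
  · refine Finset.sum_congr rfl fun J hJ => ?_
    rw [hNn J hJ]

theorem integrable_of_pettis {ι : Type} [Fintype ι] {X : Type} [TopologicalSpace X]
    [CompactSpace X]
    (hseq : ∀ u : ℕ → X, ∃ z : X, ∃ φ : ℕ → ℕ, StrictMono φ ∧ Tendsto (u ∘ φ) atTop (𝓝 z))
    (G : (ι → ℝ) → C(X, ℝ)) (hG : StronglyMeasurable G) (B : Box ι)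
    (l : IntegrationParams) (hl : l.bRiemann = false)
    (h1 : ∀ x, IntegrableOn (fun t => G t x) B)
    (h2 : ∀ A, MeasurableSet A → A ⊆ (B : Set (ι → ℝ)) →
      ∃ y : C(X, ℝ), ∀ x, y x = ∫ t in A, G t x) :
    BoxIntegral.Integrable B l G BoxAdditiveMap.volume := by
  classical
  obtain ⟨yB, hyB⟩ := h2 B B.measurableSet_coe subset_rfl
  refine ⟨yB, HasIntegral.of_mul 3 fun ε hε => ?_⟩
  obtain ⟨N₀, hN₀⟩ := uniform_tail volume hseq G hG B h1 h2 hε
  let N : (ι → ℝ) → ℕ := fun t => ⌊‖G t‖⌋₊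
  have hNmeas : Measurable N := Nat.measurable_floor.comp hG.norm.measurable
  have hN1 : ∀ t, (N t : ℝ) ≤ ‖G t‖ := fun t => Nat.floor_le (norm_nonneg _)
  have hN2 : ∀ t, ‖G t‖ < N t + 1 := fun t => Nat.lt_floor_add_one _
  let E : ℕ → Set (ι → ℝ) := fun n => N ⁻¹' {n}
  have hE : ∀ n, MeasurableSet (E n) := fun n => hNmeas (measurableSet_singleton n)
  let Gn : ℕ → (ι → ℝ) → C(X, ℝ) := fun n => (E n).indicator G
  let cn : ℕ → (ι → ℝ) → ℝ := fun n => (E n).indicator fun _ => 1
  have hBfin : volume (B : Set (ι → ℝ)) ≠ ⊤ := (B.measure_coe_lt_top volume).ne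
  have hGn : ∀ n, IntegrableOn (Gn n) B := by
    intro n
    refine Measure.integrableOn_of_bounded (M := n + 1) hBfin
      (hG.indicator (hE n)).aestronglyMeasurable (Eventually.of_forall fun t => ?_)
    by_cases ht : t ∈ E n
    · simp only [Gn, indicator_of_mem ht]
      have h3 : N t = n := ht
      rw [← h3]
      exact (hN2 t).le
    · simp only [Gn, indicator_of_notMem ht, norm_zero]
      positivity
  have hcn : ∀ n, IntegrableOn (cn n) B := by
    intro n
    refine Measure.integrableOn_of_bounded (M := 1) hBfin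
      (stronglyMeasurable_const.indicator (hE n)).aestronglyMeasurable
      (Eventually.of_forall fun t => ?_)
    by_cases ht : t ∈ E n
    · simp only [cn, indicator_of_mem ht, norm_one, le_refl]
    · simp only [cn, indicator_of_notMem ht, norm_zero, zero_le_one]
  have hFG : ∀ n, ∀ J : Box ι, J ≤ B → HasIntegral J l (Gn n) BoxAdditiveMap.volume
      (∫ t in J, Gn n t) := fun n J hJ =>
    IntegrableOn.hasBoxIntegral ((hGn n).mono_set hJ) l hl
  have hFc : ∀ n, ∀ J : Box ι, J ≤ B → HasIntegral J l (cn n) BoxAdditiveMap.volume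
      (∫ t in J, cn n t) := fun n J hJ =>
    IntegrableOn.hasBoxIntegral ((hcn n).mono_set hJ) l hl
  have hIG : ∀ n, BoxIntegral.Integrable B l (Gn n) BoxAdditiveMap.volume := fun n =>
    (hFG n B le_rfl).integrable
  have hIc : ∀ n, BoxIntegral.Integrable B l (cn n) BoxAdditiveMap.volume := fun n =>
    (hFc n B le_rfl).integrable
  -- choice of the errors
  set η : ℝ := ε / ((N₀ : ℝ) + 1) with hη
  have hN₀pos : (0 : ℝ) < (N₀ : ℝ) + 1 := by positivity
  have hη0 : 0 < η := by positivity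
  have hηle : η ≤ ε := div_le_self hε.le (by linarith [Nat.cast_nonneg (α := ℝ) N₀])
  have hηN : (N₀ : ℝ) * η ≤ ε := by
    rw [hη, mul_div_assoc', div_le_iff₀ hN₀pos]
    nlinarith [Nat.cast_nonneg (α := ℝ) N₀]
  obtain ⟨δ, δ0, c', hδ, hc'⟩ := NNReal.exists_pos_sum_of_countable
    (show (⟨η, hη0.le⟩ : ℝ≥0) ≠ 0 from fun h => hη0.ne' (congrArg NNReal.toReal h)) ℕ
  have hc'η : (c' : ℝ) ≤ η := by
    have : c' ≤ (⟨η, hη0.le⟩ : ℝ≥0) := hc'.le
    exact this
  let r : ℝ≥0 → (ι → ℝ) → Ioi (0 : ℝ) := fun c t =>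
    min ((hIG (N t)).convergenceR (δ (N t)) c t) ((hIc (N t)).convergenceR (δ (N t)) c t)
  refine ⟨r, fun c => l.rCond_of_bRiemann_eq_false hl, fun c π hπ hπp => ?_⟩
  have hle : ∀ J ∈ π.boxes, J ≤ B := fun J hJ => π.le_of_mem' J hJ
  have hmemE : ∀ t, t ∈ E (N t) := fun t => rfl
  have e1 := henstock_group hIG N δ δ0 hδ hπ (fun t => min_le_left _ _)
  have e2 := henstock_group hIc N δ δ0 hδ hπ (fun t => min_le_right _ _)
  have e3 : ∑ J ∈ π.boxes, BoxAdditiveMap.volume J (Gn (N (π.tag J)) (π.tag J)) =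
      integralSum G BoxAdditiveMap.volume π := by
    rw [integralSum]
    refine Finset.sum_congr rfl fun J _ => ?_
    simp only [Gn, indicator_of_mem (hmemE (π.tag J))]
  have e4 : ∑ J ∈ π.boxes, BoxIntegral.integral J l (Gn (N (π.tag J))) BoxAdditiveMap.volume =
      ∑ J ∈ π.boxes, ∫ t in J, Gn (N (π.tag J)) t :=
    Finset.sum_congr rfl fun J hJ => (hFG _ J (hle J hJ)).integral_eq
  rw [e3, e4] at e1
  have e5 : ∑ J ∈ π.boxes, BoxAdditiveMap.volume J (cn (N (π.tag J)) (π.tag J)) =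
      ∑ J ∈ π.boxes, volume.real (J : Set (ι → ℝ)) := by
    refine Finset.sum_congr rfl fun J _ => ?_
    simp only [cn, indicator_of_mem (hmemE (π.tag J))]
    rw [BoxAdditiveMap.volume_apply, smul_eq_mul, mul_one, ← Box.volume_apply']
    rfl
  have e6 : ∑ J ∈ π.boxes, BoxIntegral.integral J l (cn (N (π.tag J))) BoxAdditiveMap.volume =
      ∑ J ∈ π.boxes, volume.real ((J : Set (ι → ℝ)) ∩ E (N (π.tag J))) := by
    refine Finset.sum_congr rfl fun J hJ => ?_
    rw [(hFc _ J (hle J hJ)).integral_eq]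
    simp only [cn]
    rw [setIntegral_indicator (hE _), setIntegral_const, smul_eq_mul, mul_one]
  rw [e5, e6] at e2
  let D : Set (ι → ℝ) := ⋃ J ∈ π.boxes, ((J : Set (ι → ℝ)) \ E (N (π.tag J)))
  have hDd : (π.boxes : Set (Box ι)).PairwiseDisjoint
      fun J => ((J : Set (ι → ℝ)) \ E (N (π.tag J))) := by
    intro J hJ J' hJ' hne
    exact (π.pairwiseDisjoint hJ hJ' hne).mono sdiff_subset sdiff_subset
  have hDm : ∀ J : Box ι, MeasurableSet ((J : Set (ι → ℝ)) \ E (N (π.tag J))) := fun J =>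
    J.measurableSet_coe.diff (hE _)
  have hDmeas : MeasurableSet D := Finset.measurableSet_biUnion _ fun J _ => hDm J
  have hDB : D ⊆ B := iUnion₂_subset fun J hJ => sdiff_subset.trans (hle J hJ)
  have hJfin : ∀ J : Box ι, volume (J : Set (ι → ℝ)) ≠ ⊤ := fun J =>
    (J.measure_coe_lt_top volume).ne
  have hDvol : volume.real D ≤ c' := by
    have h3 : volume.real D = ∑ J ∈ π.boxes, volume.real ((J : Set (ι → ℝ)) \ E (N (π.tag J))) :=
      measureReal_biUnion_finset hDd (fun J _ => hDm J)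
        (fun J _ => ne_top_of_le_ne_top (hJfin J) (measure_mono sdiff_subset))
    have h4 : ∀ J ∈ π.boxes, volume.real ((J : Set (ι → ℝ)) \ E (N (π.tag J))) =
        volume.real (J : Set (ι → ℝ)) - volume.real ((J : Set (ι → ℝ)) ∩ E (N (π.tag J))) := by
      intro J _
      have := measureReal_inter_add_sdiff (μ := volume) (s := (J : Set (ι → ℝ)))
        (hE (N (π.tag J))) (hJfin J)
      linarith
    rw [h3, Finset.sum_congr rfl h4, Finset.sum_sub_distrib]
    rw [Real.dist_eq] at e2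
    exact (le_abs_self _).trans e2
  have key : dist (∑ J ∈ π.boxes, ∫ t in J, Gn (N (π.tag J)) t) yB ≤ 2 * ε := by
    refine (ContinuousMap.dist_le (by positivity)).2 fun x => ?_
    have h3 : (∑ J ∈ π.boxes, ∫ t in J, Gn (N (π.tag J)) t) x =
        ∑ J ∈ π.boxes, ∫ t in (J : Set (ι → ℝ)) ∩ E (N (π.tag J)), G t x := by
      rw [ContinuousMap.sum_apply]
      refine Finset.sum_congr rfl fun J hJ => ?_
      have h4 := (ContinuousMap.evalCLM ℝ x).integral_comp_comm
        ((hGn (N (π.tag J))).mono_set (hle J hJ))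
      have h5 : (∫ t in J, Gn (N (π.tag J)) t) x = ∫ t in J, (Gn (N (π.tag J)) t) x := h4.symm
      rw [h5, ← setIntegral_indicator (hE _)]
      refine setIntegral_congr_fun J.measurableSet_coe fun t _ => ?_
      by_cases ht : t ∈ E (N (π.tag J))
      · simp only [Gn, indicator_of_mem ht]
      · simp only [Gn, indicator_of_notMem ht]
        rfl
    have h4 : yB x = ∑ J ∈ π.boxes, ∫ t in (J : Set (ι → ℝ)), G t x := by
      rw [hyB x, ← hπp.iUnion_eq, Prepartition.iUnion_def',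
        integral_biUnion_finset π.boxes (fun J _ => J.measurableSet_coe) π.pairwiseDisjoint
          fun J hJ => (h1 x).mono_set (hle J hJ)]
    have h5 : yB x - ∑ J ∈ π.boxes, ∫ t in (J : Set (ι → ℝ)) ∩ E (N (π.tag J)), G t x =
        ∫ t in D, G t x := by
      rw [h4, ← Finset.sum_sub_distrib, integral_biUnion_finset π.boxes (fun J _ => hDm J) hDd
        fun J hJ => (h1 x).mono_set (sdiff_subset.trans (hle J hJ))]
      refine Finset.sum_congr rfl fun J hJ => ?_
      have h13 : IntegrableOn (fun t => G t x) (J : Set (ι → ℝ)) :=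
        (h1 x).mono_set (hle J hJ)
      have h12 : (∫ t in (J : Set (ι → ℝ)) ∩ E (N (π.tag J)), G t x) +
          ∫ t in (J : Set (ι → ℝ)) \ E (N (π.tag J)), G t x = ∫ t in (J : Set (ι → ℝ)), G t x :=
        integral_inter_add_sdiff (hE (N (π.tag J))) h13
      exact (eq_sub_of_add_eq' h12).symm
    rw [h3, dist_comm, Real.dist_eq, h5]
    have hP : MeasurableSet {t | N t < N₀} := measurableSet_lt hNmeas measurable_const
    have h6 := integral_inter_add_sdiff hP ((h1 x).mono_set hDB)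
    rw [← h6]
    have h7 : |∫ t in D ∩ {t | N t < N₀}, G t x| ≤ N₀ * volume.real (D ∩ {t | N t < N₀}) := by
      have hfin : volume (D ∩ {t | N t < N₀}) < ⊤ :=
        lt_of_le_of_lt (measure_mono (inter_subset_left.trans hDB)) (B.measure_coe_lt_top volume)
      rw [← Real.norm_eq_abs]
      refine norm_setIntegral_le_of_norm_le_const hfin fun t ht => ?_
      have h8 : N t + 1 ≤ N₀ := ht.2
      have h9 : (N t : ℝ) + 1 ≤ N₀ := by exact_mod_cast h8
      exact ((ContinuousMap.norm_coe_le_norm _ _).trans (hN2 t).le).trans h9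
    have h8 : volume.real (D ∩ {t | N t < N₀}) ≤ c' :=
      (measureReal_mono inter_subset_left
        (ne_top_of_le_ne_top hBfin (measure_mono hDB))).trans hDvol
    have h9 : |∫ t in D \ {t | N t < N₀}, G t x| ≤ ε := by
      refine hN₀ _ (hDmeas.diff hP) (sdiff_subset.trans hDB) (fun t ht => ?_) x
      have h10 : N₀ ≤ N t := not_lt.1 ht.2
      have h11 : (N₀ : ℝ) ≤ N t := by exact_mod_cast h10
      exact h11.trans (hN1 t)
    have h10 : (N₀ : ℝ) * volume.real (D ∩ {t | N t < N₀}) ≤ ε :=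
      (mul_le_mul_of_nonneg_left (h8.trans hc'η) (Nat.cast_nonneg _)).trans hηN
    refine (abs_add_le _ _).trans ?_
    linarith
  calc dist (integralSum G BoxAdditiveMap.volume π) yB ≤ _ + _ := dist_triangle _ _ _
    _ ≤ ε + 2 * ε := add_le_add ((e1.trans hc'η).trans hηle) key
    _ = 3 * ε := by ring

end Pool.Agent.Lib.MP_9f8c44_an
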