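import Mathlib
import Pool.Agent.Lib.MP_9f8c44_an.NonUniform
import Pool.Agent.Lib.MP_9f8c44_an.PettisStrong

set_option autoImplicit false

/-!
If unions of `ℵ₁` null sets are null, then Pettis integrable functions with values in `C(K)` are
McShane integrable.
-/

namespace Pool.Agent.Lib.MP_9f8c44_an

open Set Filter Topology MeasureTheory BoxIntegral

/-- A continuous function on `K` depends, up to `ε`, on finitely many coordinates. -/
lemma unif (g : C(K, ℝ)) {ε : ℝ} (hε : 0 < ε) :
    ∃ F : Finset I, ∀ x y : K, (∀ i ∈ F, x.coord i = y.coord i) → |g x - g y| < ε := by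
  classical
  choose F hF hF' using fun z => exists_finite_nhds g g.continuous z (half_pos hε)
  let U : K → Set K := fun z => {x | ∀ i ∈ F z, x.coord i = z.coord i}
  have hU : ∀ z, U z ∈ 𝓝 z := by
    intro z
    have h1 : U z = ⋂ i ∈ F z, {x : K | x.coord i = z.coord i} := by
      ext x; simp [U]
    rw [h1, biInter_mem (hF z)]
    intro i _
    exact ((isOpen_discrete {z.coord i}).preimage (continuous_coord i)).mem_nhds rfl
  obtain ⟨t, -, ht⟩ := isCompact_univ.elim_nhds_subcover U fun z _ => hU z
  refine ⟨t.biUnion fun z => (hF z).toFinset, fun x y hxy => ?_⟩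
  obtain ⟨z, hzt, hxz⟩ := mem_iUnion₂.1 (ht (mem_univ x))
  have hyz : ∀ i ∈ F z, y.coord i = z.coord i := by
    intro i hi
    rw [← hxy i (Finset.mem_biUnion.2 ⟨z, hzt, (hF z).mem_toFinset.2 hi⟩)]
    exact hxz i hi
  have h1 := abs_lt.1 (hF' z x hxz)
  have h2 := abs_lt.1 (hF' z y hyz)
  rw [abs_lt]
  constructor <;> linarith [h1.1, h1.2, h2.1, h2.2]

open Classical in
/-- The restriction of a point of `K` to a finite set of indices. -/
noncomputable def K.restrF (F : Finset I) (x : K) : K :=
  ⟨fun i => if i ∈ F then x.coord i else false, fun A hA => x.2 A fun i hi => by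
    have := hA i hi
    by_cases h : i ∈ F
    · change x.coord i = true
      simpa [h] using this
    · simp [h] at this⟩

open Classical in
lemma K.coord_restrF (F : Finset I) (x : K) (i : I) :
    (x.restrF F).coord i = if i ∈ F then x.coord i else false := rfl

lemma continuous_restrF (F : Finset I) : Continuous (K.restrF F) := by
  refine Continuous.subtype_mk (continuous_pi fun i => ?_) _
  by_cases h : i ∈ F
  · simpa [h] using continuous_coord i
  · simpa [h] using continuous_const

/-- Composition with the restriction below `a`. -/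
noncomputable def compR (a : I) (g : C(K, ℝ)) : C(K, ℝ) := g.comp ⟨K.restr a, continuous_restr a⟩

/-- Composition with the restriction to `F`. -/
noncomputable def compF (F : Finset I) (g : C(K, ℝ)) : C(K, ℝ) :=
  g.comp ⟨K.restrF F, continuous_restrF F⟩

open Classical in
/-- A point of `K` with support `A`, if `A` is good. -/
noncomputable def ptq (A : Finset I) : K := if h : GoodSet A then pt A h else z0

open Classical in
/-- The indicator function of the set of points whose support meets `F` in `A`. -/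
noncomputable def chi (F A : Finset I) : C(K, ℝ) := ∏ i ∈ F, if i ∈ A then ee i else 1 - ee i

open Classical in
lemma compF_eq (F : Finset I) (g : C(K, ℝ)) :
    compF F g = ∑ A ∈ F.powerset, g (ptq A) • chi F A := by
  ext x
  rw [ContinuousMap.sum_apply]
  have hprod : ∀ A, chi F A x = ∏ i ∈ F, if i ∈ A then ee i x else 1 - ee i x := by
    intro A
    rw [chi, ContinuousMap.prod_apply]
    refine Finset.prod_congr rfl fun i _ => ?_
    split_ifs
    · rfl
    · rfl
  rw [Finset.sum_eq_single (x.supp ∩ F)]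
  · have h1 : chi F (x.supp ∩ F) x = 1 := by
      rw [hprod]
      refine Finset.prod_eq_one fun i hi => ?_
      by_cases h : x.coord i = true
      · rw [if_pos (Finset.mem_inter.2 ⟨(x.mem_supp i).2 h, hi⟩), ee_apply, if_pos h]
      · rw [if_neg (fun h' => h ((x.mem_supp i).1 (Finset.mem_inter.1 h').1)), ee_apply, if_neg h,
          sub_zero]
    have h2 : GoodSet (x.supp ∩ F) := x.goodSet_supp.mono Finset.inter_subset_left
    have h3 : ptq (x.supp ∩ F) = x.restrF F := by
      rw [ptq, dif_pos h2]
      apply K.ext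
      intro i
      rw [coord_pt, K.coord_restrF]
      by_cases hi : i ∈ F
      · rw [if_pos hi]
        by_cases h : x.coord i = true
        · rw [h]
          exact decide_eq_true (Finset.mem_inter.2 ⟨(x.mem_supp i).2 h, hi⟩)
        · have h' : x.coord i = false := by simpa using h
          rw [h']
          exact decide_eq_false fun h'' => h ((x.mem_supp i).1 (Finset.mem_inter.1 h'').1)
      · rw [if_neg hi]
        exact decide_eq_false fun h'' => hi (Finset.mem_inter.1 h'').2
    change g (x.restrF F) = g (ptq (x.supp ∩ F)) * chi F (x.supp ∩ F) x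
    rw [h1, h3, mul_one]
  · intro A hA hne
    have h1 : chi F A x = 0 := by
      rw [hprod]
      have : ∃ i ∈ F, ¬ (i ∈ A ↔ i ∈ x.supp) := by
        by_contra hcon
        push Not at hcon
        apply hne
        ext i
        rw [Finset.mem_inter]
        constructor
        · intro hi
          exact ⟨(hcon i (Finset.mem_powerset.1 hA hi)).1 hi, Finset.mem_powerset.1 hA hi⟩
        · rintro ⟨h', h''⟩
          exact (hcon i h'').2 h'
      obtain ⟨i, hi, hi'⟩ := this
      refine Finset.prod_eq_zero hi ?_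
      by_cases h : i ∈ A
      · have h2 : ¬ x.coord i = true := fun h' => hi' ⟨fun _ => (x.mem_supp i).2 h', fun _ => h⟩
        rw [if_pos h, ee_apply, if_neg h2]
      · have h2 : x.coord i = true := by
          by_contra h'
          exact hi' ⟨fun h3 => absurd h3 h, fun h3 => absurd ((x.mem_supp i).1 h3) h'⟩
        rw [if_neg h, ee_apply, if_pos h2, sub_self]
    change g (ptq A) * chi F A x = 0
    rw [h1, mul_zero]
  · intro h
    exact absurd (Finset.mem_powerset.2 Finset.inter_subset_right) h

lemma aestronglyMeasurable_compF {Ω : Type} [MeasurableSpace Ω] {μ : Measure Ω}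
    {f : Ω → C(K, ℝ)} (hf : ∀ x, AEStronglyMeasurable (fun t => f t x) μ) (F : Finset I) :
    AEStronglyMeasurable (fun t => compF F (f t)) μ := by
  classical
  simp only [compF_eq]
  exact Finset.aestronglyMeasurable_fun_sum _ fun A _ => (hf _).smul_const _

lemma tendsto_compF (b : I) (u : ℕ → I) (hu : range u = Iio b) (g : C(K, ℝ)) :
    Tendsto (fun n => compF (by classical exact (Finset.range n).image u) g) atTop
      (𝓝 (compR b g)) := by
  classical
  rw [Metric.tendsto_atTop]
  intro ε hε
  obtain ⟨F, hF⟩ := unif g (half_pos hε)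
  have h1 : ∀ i ∈ F, ∃ n, i < b → u n = i := by
    intro i _
    by_cases hi : i < b
    · have : i ∈ range u := by rw [hu]; exact hi
      obtain ⟨n, hn⟩ := this
      exact ⟨n, fun _ => hn⟩
    · exact ⟨0, fun h => absurd h hi⟩
  choose! n hn using h1
  refine ⟨F.sup n + 1, fun m hm => ?_⟩
  refine lt_of_le_of_lt ((ContinuousMap.dist_le (half_pos hε).le).2 fun x => ?_) (half_lt_self hε)
  change |g (x.restrF _) - g (x.restr b)| ≤ ε / 2
  refine (hF _ _ fun i hi => ?_).le
  rw [K.coord_restrF, K.coord_restr]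
  by_cases hib : i < b
  · have h2 : i ∈ (Finset.range m).image u := by
      rw [Finset.mem_image]
      refine ⟨n i, Finset.mem_range.2 ?_, hn i hi hib⟩
      have : n i ≤ F.sup n := Finset.le_sup hi
      omega
    rw [if_pos hib]
    convert if_pos h2
  · have h2 : ¬ i ∈ (Finset.range m).image u := by
      intro h3
      obtain ⟨j, -, hj⟩ := Finset.mem_image.1 h3
      have : u j ∈ Iio b := by rw [← hu]; exact mem_range_self j
      rw [hj] at this
      exact hib this
    rw [if_neg hib]
    convert if_neg h2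

lemma aestronglyMeasurable_compR {Ω : Type} [MeasurableSpace Ω] {μ : Measure Ω}
    {f : Ω → C(K, ℝ)} (hf : ∀ x, AEStronglyMeasurable (fun t => f t x) μ) (b c : I) (hcb : c < b) :
    AEStronglyMeasurable (fun t => compR b (f t)) μ := by
  obtain ⟨u, hu⟩ := (countable_Iio b).exists_eq_range ⟨c, hcb⟩
  exact aestronglyMeasurable_of_tendsto_ae atTop
    (fun n => aestronglyMeasurable_compF hf _)
    (ae_of_all _ fun t => tendsto_compF b u hu.symm (f t))

theorem exists_ae_eq (hN : AlephOneNullUnions) (f : ℝ → C(K, ℝ))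
    (hf : ∀ x, AEStronglyMeasurable (fun t => f t x) (volume.restrict (Icc (0 : ℝ) 1))) :
    ∃ b c : I, c < b ∧ ∀ᵐ t ∂(volume.restrict (Icc (0 : ℝ) 1)), ∀ x, f t (x.restr b) = f t x := by
  let S : I → Set ℝ := fun a => {t | t ∈ Icc (0 : ℝ) 1 ∧ ∀ x, f t (x.restr a) = f t x}
  have hSmono : Monotone S := by
    intro a b hab t ht
    refine ⟨ht.1, fun x => ?_⟩
    rw [← ht.2 (x.restr b), K.restr_restr hab, ht.2]
  have hSfin : ∀ a, volume (S a) ≤ 1 := by
    intro a
    calc volume (S a) ≤ volume (Icc (0 : ℝ) 1) := measure_mono fun t ht => ht.1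
      _ = 1 := by simp
  -- stabilisation
  obtain ⟨b₀, _⟩ := exists_gt_of_countable (S := (∅ : Set I)) countable_empty
  obtain ⟨u, -, hu1, hu2⟩ := exists_seq_tendsto_sSup (S := range fun a => volume (S a))
    ⟨_, b₀, rfl⟩ (OrderTop.bddAbove _)
  choose a ha using hu2
  obtain ⟨b, hb⟩ := exists_gt_of_countable (S := range a) (countable_range a)
  have hmax : ∀ c, volume (S c) ≤ volume (S b) := by
    intro c
    have h1 : volume (S c) ≤ sSup (range fun a => volume (S a)) := le_sSup ⟨c, rfl⟩
    refine h1.trans (le_of_tendsto' hu1 fun n => ?_)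
    rw [← ha n]
    exact measure_mono (hSmono (hb _ (mem_range_self n)).le)
  have hbfin : volume (S b) ≠ ⊤ := ne_top_of_le_ne_top ENNReal.one_ne_top (hSfin b)
  set H := toMeasurable volume (S b) with hH
  have hHm : MeasurableSet H := measurableSet_toMeasurable _ _
  have hnull : ∀ c, volume (S c \ H) = 0 := by
    intro c
    have h1 : S c \ H ⊆ S (max c b) \ H := sdiff_subset_sdiff_left (hSmono (le_max_left c b))
    refine measure_mono_null h1 ?_
    have h2 := measure_inter_add_sdiff (μ := volume) (S (max c b)) hHm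
    have h3 : volume (S b) ≤ volume (S (max c b) ∩ H) :=
      measure_mono (subset_inter (hSmono (le_max_right c b)) (subset_toMeasurable _ _))
    have h4 : volume (S b) + volume (S (max c b) \ H) ≤ volume (S b) + 0 := by
      rw [add_zero]
      calc volume (S b) + volume (S (max c b) \ H)
          ≤ volume (S (max c b) ∩ H) + volume (S (max c b) \ H) := by gcongr
        _ = volume (S (max c b)) := h2
        _ ≤ volume (S b) := hmax _
    exact nonpos_iff_eq_zero.1 ((ENNReal.add_le_add_iff_left hbfin).1 h4)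
  have hcov : Icc (0 : ℝ) 1 ⊆ H ∪ ⋃ c, (S c \ H) := by
    intro t ht
    obtain ⟨c, hc⟩ := exists_restr (f t)
    by_cases htH : t ∈ H
    · exact Or.inl htH
    · exact Or.inr (mem_iUnion.2 ⟨c, ⟨ht, hc⟩, htH⟩)
  have hfull : 1 ≤ volume (S b) := by
    have h1 : volume (⋃ c, (S c \ H)) = 0 := hN I _ mk_I.le hnull
    calc (1 : ENNReal) = volume (Icc (0 : ℝ) 1) := by simp
      _ ≤ volume (H ∪ ⋃ c, (S c \ H)) := measure_mono hcov
      _ ≤ volume H + volume (⋃ c, (S c \ H)) := measure_union_le _ _
      _ = volume (S b) := by rw [h1, add_zero, hH, measure_toMeasurable]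
  obtain ⟨b', hb'⟩ := exists_gt_of_countable (S := {b}) (countable_singleton b)
  have hbb' : b < b' := hb' b rfl
  have hfull' : 1 ≤ volume (S b') := hfull.trans (measure_mono (hSmono hbb'.le))
  refine ⟨b', b, hbb', ?_⟩
  set μ := volume.restrict (Icc (0 : ℝ) 1) with hμ
  have hμuniv : μ univ = 1 := by simp [hμ]
  have : IsFiniteMeasure μ := ⟨by rw [hμuniv]; exact ENNReal.one_lt_top⟩
  have hpt : ∀ x : K, ∀ᵐ t ∂μ, f t (x.restr b') = f t x := by
    intro x
    have hmeas : AEStronglyMeasurable (fun t => f t (x.restr b') - f t x) μ :=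
      (hf _).sub (hf _)
    obtain ⟨h', hh', hhe⟩ := hmeas
    have hM : MeasurableSet {t | h' t = 0} := hh'.measurable (measurableSet_singleton 0)
    have h1 : μ (S b') = volume (S b') := by
      rw [hμ, Measure.restrict_apply' measurableSet_Icc, inter_eq_left.2 fun t ht => ht.1]
    have h2 : μ (S b') ≤ μ {t | h' t = 0} := by
      refine measure_mono_ae ?_
      filter_upwards [hhe] with t ht htS
      have h3 : f t (x.restr b') = f t x := htS.2 x
      rw [h3, sub_self] at ht
      exact ht.symm
    have h4 : μ {t | h' t = 0}ᶜ = 0 := by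
      rw [measure_compl hM (measure_ne_top _ _), hμuniv]
      exact tsub_eq_zero_of_le (hfull'.trans (h1 ▸ h2))
    have h5 : ∀ᵐ t ∂μ, h' t = 0 := h4
    filter_upwards [hhe, h5] with t ht1 ht2
    rw [ht2] at ht1
    exact sub_eq_zero.1 ht1
  have hnull2 := hN K (fun x => {t | t ∈ Icc (0 : ℝ) 1 ∧ f t (x.restr b') ≠ f t x}) mk_K
    (fun x => by
      have := hpt x
      rw [hμ, ae_restrict_iff' measurableSet_Icc, ae_iff] at this
      refine measure_mono_null ?_ this
      intro t ht h
      exact ht.2 (h ht.1))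
  rw [hμ, ae_restrict_iff' measurableSet_Icc, ae_iff]
  refine measure_mono_null ?_ hnull2
  intro t ht
  rw [mem_iUnion]
  by_contra hcon
  push Not at hcon
  apply ht
  intro ht01 x
  by_contra hne
  exact hcon x ⟨ht01, hne⟩

theorem pettisEqMcShane_of (hN : AlephOneNullUnions) : PettisEqMcShane K := by
  intro f hf
  obtain ⟨hf1, hf2⟩ := hf
  have hfx : ∀ x, IntegrableOn (fun t => f t x) (Icc (0 : ℝ) 1) := fun x =>
    hf1 (ContinuousMap.evalCLM ℝ x)
  obtain ⟨b, c, hcb, hb⟩ := exists_ae_eq hN f fun x => (hfx x).aestronglyMeasurable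
  obtain ⟨g, hg, hge⟩ := aestronglyMeasurable_compR
    (fun x => (hfx x).aestronglyMeasurable) b c hcb
  have hfg : ∀ᵐ t ∂(volume.restrict (Icc (0 : ℝ) 1)), f t = g t := by
    filter_upwards [hb, hge] with t ht1 ht2
    rw [← ht2]
    ext x
    exact (ht1 x).symm
  have hgx : ∀ x, IntegrableOn (fun t => g t x) (Icc (0 : ℝ) 1) := fun x =>
    (hfx x).congr (hfg.mono fun t ht => by simp only [ht])
  have hgA : ∀ A : Set ℝ, MeasurableSet A → A ⊆ Icc (0 : ℝ) 1 →
      ∃ y : C(K, ℝ), ∀ x, y x = ∫ t in A, g t x := by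
    intro A hA hA01
    obtain ⟨y, hy⟩ := hf2 A hA hA01
    refine ⟨y, fun x => ?_⟩
    have h1 : y x = ∫ t in A, f t x := hy (ContinuousMap.evalCLM ℝ x)
    rw [h1]
    refine setIntegral_congr_ae hA ?_
    have h2 := (ae_restrict_iff' measurableSet_Icc).1 hfg
    filter_upwards [h2] with t ht htA
    rw [ht (hA01 htA)]
  unfold McShaneIntegrable
  set B : Box (Fin 1) := ⟨fun _ => (0 : ℝ), fun _ => (1 : ℝ), fun _ => (zero_lt_one : (0 : ℝ) < 1)⟩
    with hB
  let e := MeasurableEquiv.funUnique (Fin 1) ℝ
  have he : MeasurePreserving e volume volume := volume_preserving_funUnique (Fin 1) ℝ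
  let G : (Fin 1 → ℝ) → C(K, ℝ) := fun x => g (e x)
  have hGm : StronglyMeasurable G := hg.comp_measurable e.measurable
  have hBsub : (B : Set (Fin 1 → ℝ)) ⊆ e ⁻¹' Icc (0 : ℝ) 1 := by
    intro t ht
    exact ⟨(ht 0).1.le, (ht 0).2⟩
  have h1 : ∀ x, IntegrableOn (fun t => G t x) B := by
    intro x
    exact ((he.integrableOn_comp_preimage e.measurableEmbedding).2 (hgx x)).mono_set hBsub
  have h2 : ∀ A, MeasurableSet A → A ⊆ (B : Set (Fin 1 → ℝ)) →
      ∃ y : C(K, ℝ), ∀ x, y x = ∫ t in A, G t x := by
    intro A hA hAB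
    obtain ⟨y, hy⟩ := hgA (e.symm ⁻¹' A) (e.symm.measurable hA) (by
      intro s hs
      have := hBsub (hAB hs)
      simpa using this)
    refine ⟨y, fun x => ?_⟩
    rw [hy x]
    have h3 := he.setIntegral_preimage_emb e.measurableEmbedding (fun s => g s x) (e.symm ⁻¹' A)
    rw [← h3]
    have h4 : e ⁻¹' (e.symm ⁻¹' A) = A := by
      ext t; simp
    rw [h4]
  have hint := integrable_of_pettis K.exists_subseq G hGm B IntegrationParams.McShane rfl h1 h2
  obtain ⟨y, hy⟩ := hint
  refine ⟨y, HasIntegral.congr_ae hy ?_ rfl⟩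
  have h5 := (ae_restrict_iff' measurableSet_Icc).1 hfg
  have h6 : ∀ᵐ t : Fin 1 → ℝ, e t ∈ Icc (0 : ℝ) 1 → f (e t) = g (e t) :=
    he.quasiMeasurePreserving.ae h5
  refine (ae_restrict_iff' B.measurableSet_coe).2 ?_
  filter_upwards [h6] with t ht htB
  exact (ht (hBsub htB)).symm

end Pool.Agent.Lib.MP_9f8c44_an
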