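import Mathlib
import Pool.Agent.Lib.MP_9f8c44_an.Space

set_option autoImplicit false

/-!
`K` is an Eberlein compact space.
-/

namespace Pool.Agent.Lib.MP_9f8c44_an

open Set

/-- The index set with the discrete topology. -/
def D : Type := I

instance : TopologicalSpace D := ⊥
instance : DiscreteTopology D := ⟨rfl⟩

open Classical in
/-- A finitely supported function as an element of `c₀`. -/
noncomputable def fin0 (A : Finset D) (c : D → ℝ) : ZeroAtInftyContinuousMap D ℝ where
  toFun := fun i => if i ∈ A then c i else 0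
  continuous_toFun := continuous_of_discreteTopology
  zero_at_infty' := by
    rw [Filter.cocompact_eq_cofinite]
    apply tendsto_nhds_of_eventually_eq
    rw [Filter.eventually_cofinite]
    refine A.finite_toSet.subset fun i hi => ?_
    by_contra h
    exact hi (by simp_all)

open Classical in
lemma fin0_apply (A : Finset D) (c : D → ℝ) (i : D) :
    fin0 A c i = if i ∈ A then c i else 0 := rfl

lemma fin0_eq_sum (A : Finset D) (c : D → ℝ) :
    fin0 A c = ∑ i ∈ A, c i • fin0 {i} (fun _ => 1) := by
  classical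
  ext j
  have : ∀ (s : Finset D), (∑ i ∈ s, c i • fin0 {i} (fun _ => 1)) j =
      ∑ i ∈ s, (c i • fin0 {i} (fun _ => (1 : ℝ))) j := by
    intro s
    induction s using Finset.induction_on with
    | empty => simp
    | insert a s ha ih => rw [Finset.sum_insert ha, Finset.sum_insert ha,
        ZeroAtInftyContinuousMap.add_apply, ih]
  rw [this, fin0_apply]
  simp only [ZeroAtInftyContinuousMap.smul_apply, fin0_apply, Finset.mem_singleton, smul_eq_mul,
    mul_ite, mul_one, mul_zero, Finset.sum_ite_eq]

lemma norm_fin0_le (A : Finset D) (c : D → ℝ) (hc : ∀ i, |c i| ≤ 1) : ‖fin0 A c‖ ≤ 1 := by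
  rw [← ZeroAtInftyContinuousMap.norm_toBCF_eq_norm]
  refine (BoundedContinuousFunction.norm_le zero_le_one).2 fun i => ?_
  change ‖fin0 A c i‖ ≤ 1
  rw [fin0_apply, Real.norm_eq_abs]
  split_ifs
  · exact hc i
  · simp

lemma summable_functional (φ : ZeroAtInftyContinuousMap D ℝ →L[ℝ] ℝ) :
    Summable fun i : D => |φ (fin0 {i} fun _ => 1)| := by
  refine summable_of_sum_le (c := ‖φ‖) (fun i => abs_nonneg _) fun s => ?_
  have h1 : ∑ i ∈ s, |φ (fin0 {i} fun _ => 1)| =
      φ (fin0 s fun i => SignType.sign (φ (fin0 {i} fun _ => 1))) := by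
    rw [fin0_eq_sum, map_sum]
    refine Finset.sum_congr rfl fun i _ => ?_
    rw [map_smul, smul_eq_mul, sign_mul_self]
  rw [h1]
  calc φ (fin0 s fun i => SignType.sign (φ (fin0 {i} fun _ => 1))) ≤ ‖_‖ := le_abs_self _
    _ ≤ ‖φ‖ * ‖fin0 s fun i => SignType.sign (φ (fin0 {i} fun _ => 1))‖ := φ.le_opNorm _
    _ ≤ ‖φ‖ * 1 := by
        refine mul_le_mul_of_nonneg_left (norm_fin0_le _ _ fun i => ?_) φ.opNorm_nonneg
        rcases SignType.sign (φ (fin0 {i} fun _ => 1)) <;> simp
    _ = ‖φ‖ := mul_one _

/-- The coordinates, indexed by `D`. -/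
def K.cD (x : K) (i : D) : Bool := x.coord i

/-- The support, as a subset of `D`. -/
noncomputable def K.suppD (x : K) : Finset D := x.supp

lemma K.mem_suppD (x : K) (i : D) : i ∈ x.suppD ↔ x.cD i = true := x.mem_supp i

lemma continuous_cD (i : D) : Continuous fun x : K => if x.cD i then (1 : ℝ) else 0 :=
  (ee i).continuous

/-- The embedding of `K` into `c₀`. -/
noncomputable def toC0 (x : K) : ZeroAtInftyContinuousMap D ℝ := fin0 x.suppD fun _ => 1

lemma toC0_apply (x : K) (i : D) : toC0 x i = if x.cD i then 1 else 0 := by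
  classical
  rw [toC0, fin0_apply]
  by_cases h : x.cD i = true
  · rw [if_pos ((x.mem_suppD i).2 h), if_pos h]
  · rw [if_neg (fun h' => h ((x.mem_suppD i).1 h')), if_neg h]

lemma functional_toC0 (φ : ZeroAtInftyContinuousMap D ℝ →L[ℝ] ℝ) (x : K) :
    φ (toC0 x) = ∑' i : D, (if x.cD i then 1 else 0) * φ (fin0 {i} fun _ => 1) := by
  rw [toC0, fin0_eq_sum, map_sum, tsum_eq_sum (s := x.suppD)]
  · refine Finset.sum_congr rfl fun i hi => ?_
    rw [if_pos ((x.mem_suppD i).1 hi), map_smul, smul_eq_mul]
  · intro i hi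
    rw [if_neg (fun h' => hi ((x.mem_suppD i).2 h')), zero_mul]

lemma continuous_functional_toC0 (φ : ZeroAtInftyContinuousMap D ℝ →L[ℝ] ℝ) :
    Continuous fun x : K => φ (toC0 x) := by
  simp only [functional_toC0]
  refine continuous_tsum (u := fun i => |φ (fin0 {i} fun _ => 1)|) (fun i => ?_)
    (summable_functional φ) fun i x => ?_
  · exact (continuous_cD i).mul continuous_const
  · rw [Real.norm_eq_abs, abs_mul]
    split_ifs <;> simp

theorem isEberlein_K : IsEberlein K := by
  refine ⟨ZeroAtInftyContinuousMap D ℝ, inferInstance, inferInstance, inferInstance,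
    fun x => toWeakSpace ℝ _ (toC0 x), ?_⟩
  have hcont : Continuous fun x : K => toWeakSpace ℝ (ZeroAtInftyContinuousMap D ℝ) (toC0 x) :=
    WeakBilin.continuous_of_continuous_eval _ fun φ => continuous_functional_toC0 φ
  have hinj : Function.Injective
      fun x : K => toWeakSpace ℝ (ZeroAtInftyContinuousMap D ℝ) (toC0 x) := by
    intro x y hxy
    have h1 : toC0 x = toC0 y := (toWeakSpace ℝ (ZeroAtInftyContinuousMap D ℝ)).injective hxy
    apply K.ext
    intro i
    have h2 : toC0 x i = toC0 y i := by rw [h1]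
    rw [toC0_apply, toC0_apply] at h2
    change x.cD i = y.cD i
    cases h3 : x.cD i <;> cases h4 : y.cD i <;> simp_all
  exact (hcont.isClosedEmbedding hinj).isEmbedding

end Pool.Agent.Lib.MP_9f8c44_an
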