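import Mathlib
import Pool.Agent.Lib.MP_9f8c44_an.Eberlein
import Pool.Agent.Lib.MP_9f8c44_an.Forward
import Pool.Agent.Lib.MP_9f8c44_an.Backward

set_option autoImplicit false

/-!
The main theorem.
-/

namespace Pool.Agent.Lib.MP_9f8c44_an

lemma mk_K_eq : Cardinal.mk K = Cardinal.aleph 1 := by
  refine le_antisymm mk_K ?_
  have h : Function.Injective zs := by
    intro i j hij
    have h1 : (zs i).coord i = (zs j).coord i := by rw [hij]
    simpa [coord_zs] using h1
  have := Cardinal.mk_le_of_injective h
  rwa [mk_I] at this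

theorem main : ∃ (K : Type) (_ : TopologicalSpace K) (_ : CompactSpace K) (_ : T2Space K),
    Cardinal.mk K = Cardinal.aleph 1 ∧ IsEberlein K ∧ ¬ IsUniformEberlein K ∧
      (PettisEqMcShane K ↔ AlephOneNullUnions) :=
  ⟨K, inferInstance, inferInstance, inferInstance, mk_K_eq, isEberlein_K,
    not_isUniformEberlein_K, fun h => by_contra fun h' => not_pettisEqMcShane h' h,
    pettisEqMcShane_of⟩

end Pool.Agent.Lib.MP_9f8c44_an
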